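import Pool.Agent.P.MP_b8021b_nt.CT.Teeth

/-! A chain of good lines gives a good curve. -/

namespace Pool.Agent.P.MP_b8021b_nt.CT

open CH MvPolynomial
open scoped WithZero

variable {R : Type} [CommRing R] {a : Fm R} {π : R}

theorem Tooth.symm {c c' : Fin 3 → R} (h : Tooth a π False c c') : Tooth a π False c' c := by
  obtain ⟨G, h1⟩ := h
  refine ⟨G, fun F _ _ v h r θ P hr hP h0 hθ => ?_⟩
  obtain ⟨z, hz⟩ := hθ.resolve_left id
  have := h1 F v h r⁻¹ θ (r⁻¹ • P) (inv_ne_zero hr) (fun i => ?_)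
    (by rw [aeval_smul a.hdd, h0, mul_zero]) (.inr ⟨z / r, by
      rw [div_pow, ← mul_div_assoc, map_div₀, hz, map_pow, map_inv₀]
      simp [sq]⟩)
  · rw [← smul_inv_smul₀ hr P]
    exact this.congr 1 _ (by simp) hr
  · have b := mul_le_mul' (le_refl (v r⁻¹)) (hP i)
    rw [← map_mul, mul_left_comm, mul_max, ← map_mul, inv_mul_cancel₀ hr,
      mul_one, map_one, max_comm] at b
    refine le_trans (le_of_eq ?_) b
    congr 1
    simp only [Pi.smul_apply, smul_eq_mul]
    field_simp
    ring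

theorem Chain.nil (c : Fin 3 → R) : Chain a π 0 c c := ⟨fun _ => c, rfl, rfl, by simp⟩

theorem Chain.one {c c' : Fin 3 → R} (h : Tooth a π False c c') : Chain a π 1 c c' :=
  ⟨fun i => if i = 0 then c else c', by simp, by simp, fun i hi => by
    obtain rfl : i = 0 := by omega
    simpa using h⟩

theorem Chain.symm {m : ℕ} {c c' : Fin 3 → R} (h : Chain a π m c c') : Chain a π m c' c := by
  obtain ⟨f, h0, h1, h2⟩ := h
  refine ⟨fun i => f (m - i), by simpa using h1, by simpa using h0, fun i hi => ?_⟩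
  have := (h2 (m - (i + 1)) (by omega)).symm
  rwa [show m - (i + 1) + 1 = m - i by omega] at this

theorem Chain.trans {m k : ℕ} {c c' c'' : Fin 3 → R} (h : Chain a π m c c')
    (h' : Chain a π k c' c'') : Chain a π (m + k) c c'' := by
  obtain ⟨f, h0, h1, h2⟩ := h
  obtain ⟨g, g0, g1, g2⟩ := h'
  have e : ∀ i, m ≤ i → (if i ≤ m then f i else g (i - m)) = g (i - m) := fun i hi => by
    split_ifs with c
    · rw [le_antisymm c hi, h1, Nat.sub_self, g0]
    · rfl
  refine ⟨fun i => if i ≤ m then f i else g (i - m), by simpa using h0, by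
    rw [← g1]; simpa using e (m + k) (by omega), fun i hi => ?_⟩
  rcases lt_or_ge i m with c | c
  · simpa [c.le, Nat.succ_le_of_lt c] using h2 i c
  · simp only [e i c, e (i + 1) (by omega)]
    rw [show i + 1 - m = i - m + 1 by omega]
    exact g2 _ (by omega)

/-- two neighbours dominate a strictly concave sequence -/
theorem trop (τ : ℕ → ℤ) (γ : ℤ) (hγ : 0 ≤ γ) (m : ℕ) (hm : 0 < m)
    (h : ∀ i, i + 2 ≤ m → τ (i + 2) + τ i + 2 * γ ≤ 2 * τ (i + 1)) :
    ∃ i < m, ∀ j ≤ m, j ≠ i → j ≠ i + 1 → τ j + γ ≤ max (τ i) (τ (i + 1)) := by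
  classical
  have ex : ∃ i, τ (i + 1) - τ i ≤ γ ∨ i + 1 = m := ⟨m - 1, .inr (by omega)⟩
  have h1 := Nat.find_spec ex
  have h2 := fun j => Nat.find_min ex (m := j)
  have h3 : Nat.find ex ≤ m - 1 := Nat.find_min' ex (.inr (by omega))
  set i := Nat.find ex
  have a1 : ∀ e j, j + e + 1 = i → τ j + γ ≤ τ i := fun e => by
    induction e with
    | zero => intro j hj; have := h2 j (by omega); rw [← hj]; simp only [add_zero]; omega
    | succ e ih =>
      intro j hj
      have := h2 j (by omega)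
      have := ih (j + 1) (by omega)
      omega
  have a2 : ∀ e, i + e + 2 ≤ m → τ (i + e + 2) - τ (i + e + 1) ≤ -γ ∧
      τ (i + e + 2) + γ ≤ τ (i + 1) := fun e => by
    induction e with
    | zero => intro he; have := h i he; simp only [add_zero]; omega
    | succ e ih =>
      intro he
      have := ih (by omega)
      have := h (i + e + 1) (by omega)
      simp only [← add_assoc]
      rw [show i + e + 1 + 1 = i + e + 2 from rfl] at *
      omega
  refine ⟨i, by omega, fun j hj j1 j2 => ?_⟩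
  rcases lt_or_ge j i with c | c
  · exact le_max_of_le_left (a1 (i - j - 1) j (by omega))
  · have := (a2 (j - i - 2) (by omega)).2
    rw [show i + (j - i - 2) + 2 = j by omega] at this
    exact le_max_of_le_right this

theorem teeth_bound {f : ℕ → Fin 3 → R} {m : ℕ} (h : ∀ i < m, Tooth a π False (f i) (f (i + 1))) :
    ∃ G : ℕ, ∀ i < m, ∀ (F : Type) [Field F] [Algebra R F] (v : Valuation F ℤᵐ⁰), Ext π F v →
      ∀ (r θ : F) (P : Fin 3 → F), r ≠ 0 → (∀ j, v (P j - (up F (f i) j + r * up F (f (i + 1)) j)) ≤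
        v (algebraMap R F π) ^ G * max 1 (v r)) → aeval P a.dd = 0 → (∃ y, v (θ * y ^ 2) = v r) →
        Good a v θ P := by
  choose! G hG using h
  refine ⟨∑ i ∈ Finset.range m, G i, fun i hi F _ _ v h r θ P hr hP h0 hθ =>
    hG i hi F v h r θ P hr (fun j => (hP j).trans (mul_le_mul' (h.ple ?_) le_rfl)) h0 (.inr hθ)⟩
  exact Finset.single_le_sum (f := G) (fun _ _ => Nat.zero_le _) (Finset.mem_range.2 hi)

/-- the curve that belongs to a chain -/
theorem chain_good {m : ℕ} (hm : 0 < m) {c c' : Fin 3 → R} (h : Chain a π m c c') (k : ℕ) :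
    ∃ M0 : ℕ, ∀ (l : ℕ) (u : R), IsUnit u → M0 ≤ l → Even (k + l) →
      ∃ (γ : ℕ → Fin 3 → R) (N' : ℕ), ∀ β : ℕ → Fin 3 → R, β 0 = π ^ k • c →
        β m = (π ^ l * u) • c' → (∀ i, 0 < i → i < m → ∀ j, π ^ N' ∣ β i j - γ i j) →
        ∀ (F : Type) [Field F] [Algebra R F] (v : Valuation F ℤᵐ⁰), Ext π F v → ∀ θ : F, θ ≠ 0 →
          aeval (∑ i ∈ Finset.range (m + 1), θ ^ i • up F (β i)) a.dd = 0 →
          Good a v θ (∑ i ∈ Finset.range (m + 1), θ ^ i • up F (β i)) := by
  obtain ⟨f, rfl, rfl, h⟩ := h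
  obtain ⟨G, hG⟩ := teeth_bound h
  refine ⟨k + 2 * G * m ^ 2, fun l u hu hl hev => ?_⟩
  obtain ⟨A, U, hU, A0, Am, Ale, Aev, Acv⟩ : ∃ (A : ℕ → ℕ) (U : ℕ → R), (∀ i, IsUnit (U i)) ∧
      π ^ A 0 * U 0 = π ^ k ∧ π ^ A m * U m = π ^ l * u ∧ (∀ i ≤ m, A i ≤ l) ∧
      (∀ i, Even (A i + A (i + 1))) ∧ ∀ i, i + 2 ≤ m → 2 * A (i + 1) + 2 * G ≤ A (i + 2) + A i := by
    refine ⟨fun i => if i = m then l else k + 2 * G * i ^ 2, fun i => if i = m then u else 1,
      fun i => by dsimp only; split_ifs <;> simp [hu], by simp [hm.ne], by simp, fun i hi => ?_, fun i => ?_,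
      fun i hi => ?_⟩
    · have := Nat.mul_le_mul_left (2 * G) (Nat.pow_le_pow_left hi 2)
      dsimp only
      split_ifs <;> omega
    · rw [Nat.even_iff] at hev ⊢
      simp only [mul_assoc]
      split_ifs <;> omega
    · have := Nat.mul_le_mul_left (2 * G) (Nat.pow_le_pow_left hi 2)
      dsimp only
      rw [if_neg (by omega : i + 1 ≠ m), if_neg (by omega : i ≠ m)]
      split_ifs <;> nlinarith
  refine ⟨fun i => (π ^ A i * U i) • f i, l + G, fun β b0 bm hβ F _ _ v h θ hθ h0 => ?_⟩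
  have hβ' : ∀ i ≤ m, ∀ j, π ^ (l + G) ∣ β i j - π ^ A i * U i * f i j := fun i hi j => by
    rcases Nat.eq_zero_or_pos i with rfl | c
    · simp [b0, A0]
    rcases hi.eq_or_lt with rfl | c'
    · simp [bm, Am]
    · exact hβ i c c' j
  set p := v (algebraMap R F π) with hp
  have hp0 : p ≠ 0 := h.pos.ne'
  have hv0 : v θ ≠ 0 := (Valuation.ne_zero_iff v).2 hθ
  let t : ℕ → F := fun i => θ ^ i * algebraMap R F (π ^ A i * U i)
  have ht : ∀ i, v (t i) = v θ ^ i * p ^ A i := fun i => by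
    simp only [t]; rw [map_mul, h.val (hU i), map_pow]
  have ht0 : ∀ i, v (t i) ≠ 0 := fun i => by
    rw [ht]; exact mul_ne_zero (pow_ne_zero _ hv0) (pow_ne_zero _ hp0)
  have hl0 : WithZero.log p ≤ 0 := by
    simpa using (WithZero.log_le_log hp0 one_ne_zero).2 h.lt.le
  obtain ⟨i, hi, hd⟩ := trop (fun i => WithZero.log (v (t i))) (-(G * WithZero.log p))
    (by nlinarith) m hm fun i hi => by
      have : (2 * A (i + 1) + 2 * G : ℤ) ≤ A (i + 2) + A i := by exact_mod_cast Acv i hi
      simp only [ht, WithZero.log_mul (pow_ne_zero _ hv0) (pow_ne_zero _ hp0), WithZero.log_pow,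
        nsmul_eq_mul]
      push_cast
      nlinarith
  set W := max (v (t i)) (v (t (i + 1))) with hW
  have hG1 : p ^ G ≤ 1 := by simpa using h.ple (Nat.zero_le G)
  have d1 : ∀ j ≤ m, j ≠ i → j ≠ i + 1 → v (t j) ≤ p ^ G * W := fun j hj j1 j2 => by
    have := hd j hj j1 j2
    rw [hW, mul_max, le_max_iff,
      ← WithZero.log_le_log (ht0 j) (mul_ne_zero (pow_ne_zero _ hp0) (ht0 _)),
      ← WithZero.log_le_log (ht0 j) (mul_ne_zero (pow_ne_zero _ hp0) (ht0 _)),
      WithZero.log_mul (pow_ne_zero _ hp0) (ht0 _), WithZero.log_mul (pow_ne_zero _ hp0) (ht0 _),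
      WithZero.log_pow, nsmul_eq_mul]
    omega
  have d2 : ∀ j ≤ m, v (t j) ≤ W := fun j hj => by
    by_cases j1 : j = i
    · rw [j1]; exact le_max_left _ _
    by_cases j2 : j = i + 1
    · rw [j2]; exact le_max_right _ _
    exact (d1 j hj j1 j2).trans (mul_le_of_le_one_left' hG1)
  have t0 : ∀ i, t i ≠ 0 := fun i => (Valuation.ne_zero_iff v).1 (ht0 i)
  set P := ∑ i ∈ Finset.range (m + 1), θ ^ i • up F (β i) with hP
  have := hG i hi F v h (t (i + 1) / t i) θ ((t i)⁻¹ • P) (div_ne_zero (t0 _) (t0 _)) (fun j => ?_)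
    (by rw [aeval_smul a.hdd, h0, mul_zero]) ?_
  · rw [← smul_inv_smul₀ (t0 i) P]
    exact this.congr 1 _ (by simp) (t0 i)
  · have e : P j - (t i * up F (f i) j + t (i + 1) * up F (f (i + 1)) j) =
        ∑ s ∈ Finset.range (m + 1), (θ ^ s * algebraMap R F (β s j - π ^ A s * U s * f s j) +
          if s = i ∨ s = i + 1 then 0 else t s * up F (f s) j) := by
      have e1 : t i * up F (f i) j + t (i + 1) * up F (f (i + 1)) j =
          ∑ s ∈ Finset.range (m + 1), if s = i ∨ s = i + 1 then t s * up F (f s) j else 0 := by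
        rw [← Finset.sum_filter, show (Finset.range (m + 1)).filter (fun s => s = i ∨ s = i + 1) =
          {i, i + 1} by ext s; simp; omega, Finset.sum_pair (by omega)]
      rw [e1, hP, Finset.sum_apply, ← Finset.sum_sub_distrib]
      refine Finset.sum_congr rfl fun s _ => ?_
      simp only [t, up, Pi.smul_apply, smul_eq_mul, map_sub, map_mul]
      split_ifs <;> ring
    have e2 : v (P j - (t i * up F (f i) j + t (i + 1) * up F (f (i + 1)) j)) ≤ p ^ G * W := by
      rw [e]
      refine v.map_sum_le fun s hs => v.map_add_le ?_ ?_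
      · have hs' := Nat.le_of_lt_succ (Finset.mem_range.1 hs)
        rw [map_mul, map_pow]
        refine (mul_le_mul' le_rfl ((h.dvd (hβ' s hs' j)).trans (h.ple (k := A s + G)
          (by have := Ale s hs'; omega)))).trans ?_
        rw [pow_add, ← mul_assoc, ← hp, ← ht, mul_comm]
        exact mul_le_mul' le_rfl (d2 s hs')
      · split_ifs with c
        · simp
        · rw [map_mul]
          exact (mul_le_of_le_one_right' (h.le _)).trans
            (d1 s (Nat.le_of_lt_succ (Finset.mem_range.1 hs)) (by omega) (by omega))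
    have b := mul_le_mul' (le_refl (v (t i)⁻¹)) e2
    rw [← map_mul, mul_left_comm, hW, mul_max, ← map_mul, ← map_mul,
      inv_mul_cancel₀ (t0 i), map_one, ← div_eq_inv_mul (t (i + 1))] at b
    refine le_trans (le_of_eq ?_) b
    congr 1
    have := t0 i
    simp only [Pi.smul_apply, smul_eq_mul]
    field_simp
  · obtain ⟨e, he⟩ := Aev i
    refine ⟨algebraMap R F π ^ e / algebraMap R F π ^ A i, ?_⟩
    rw [map_div₀, ht, ht, map_mul, map_pow, map_div₀, map_pow, map_pow, ← hp, div_pow, ← pow_mul,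
      mul_two, ← he, pow_add, pow_succ (v θ)]
    field_simp

end Pool.Agent.P.MP_b8021b_nt.CT
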