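import Mathlib

/-! Choices over a large finite field. -/

namespace Pool.Agent.P.MP_b8021b_nt.CT

open MvPolynomial Finset

/-- a quadratic polynomial with nonzero discriminant takes a nonsquare value off a small set -/
theorem nsq {κ : Type} [Field κ] [Finite κ] (h2 : (2 : κ) ≠ 0) (α β γ : κ)
    (hd : β ^ 2 - 4 * α * γ ≠ 0) (T : Finset κ) (hq : 2 * T.card + 6 < Nat.card κ) :
    ∃ x, x ∉ T ∧ ¬ IsSquare (α * x ^ 2 + β * x + γ) := by
  classical
  have := Fintype.ofFinite κ
  rw [Nat.card_eq_fintype_card] at hq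
  by_contra hc
  push Not at hc
  choose! z hz using hc
  let p : Polynomial κ := Polynomial.C α * .X ^ 2 + Polynomial.C β * .X + Polynomial.C γ
  have hp : p ≠ 0 := fun e => hd (by
    have a2 := congrArg (Polynomial.coeff · 2) e
    have a1 := congrArg (Polynomial.coeff · 1) e
    simp [p, Polynomial.coeff_C] at a1 a2
    simp [a1, a2])
  have hZ : p.roots.toFinset.card ≤ 2 :=
    (Multiset.toFinset_card_le _).trans ((Polynomial.card_roots' p).trans
      Polynomial.natDegree_quadratic_le)
  let A : Finset κ := univ \ (T ∪ p.roots.toFinset)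
  have hA : Fintype.card κ ≤ A.card + T.card + 2 := by
    have a1 := card_sdiff_add_card_eq_card (subset_univ (T ∪ p.roots.toFinset))
    have a2 := card_union_le T p.roots.toFinset
    rw [card_univ] at a1
    simp only [A]; omega
  have hA' : ∀ x ∈ A, α * x ^ 2 + β * x + γ = z x * z x ∧ z x ≠ 0 := fun x hx => by
    simp only [A, mem_sdiff, mem_univ, mem_union, true_and, not_or, Multiset.mem_toFinset,
      Polynomial.mem_roots hp, Polynomial.IsRoot.def] at hx
    refine ⟨hz x hx.1, fun e => hx.2 ?_⟩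
    have := hz x hx.1
    simp [p, this, e]
  obtain ⟨x0, hx0⟩ : A.Nonempty := card_pos.1 (by omega)
  let s : κ × Bool → κ := fun u => if u.2 then z u.1 else - z u.1
  have hs : ∀ u ∈ (A.erase x0) ×ˢ (univ : Finset Bool),
      s u * s u = α * u.1 ^ 2 + β * u.1 + γ ∧ u.1 - x0 ≠ 0 ∧ z u.1 ≠ 0 := fun u hu => by
    obtain ⟨a1, a2⟩ := mem_erase.1 (mem_product.1 hu).1
    refine ⟨?_, sub_ne_zero.2 a1, (hA' _ a2).2⟩
    rw [(hA' _ a2).1]
    simp only [s]; split_ifs <;> ring
  have key := card_le_card_of_injOn (s := (A.erase x0) ×ˢ (univ : Finset Bool)) (t := univ)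
    (fun u => (s u - z x0) / (u.1 - x0)) (fun _ _ => by simp) fun u hu u' hu' e => by
      obtain ⟨a1, a2, a3⟩ := hs u hu
      obtain ⟨b1, b2, -⟩ := hs u' hu'
      have h0 := (hA' _ hx0).1
      simp only at e
      set l := (s u - z x0) / (u.1 - x0) with hl
      have c1 : s u = z x0 + l * (u.1 - x0) := by rw [hl]; field_simp; ring
      have c2 : s u' = z x0 + l * (u'.1 - x0) := by rw [e]; field_simp; ring
      have d1 : (u.1 - x0) * (l ^ 2 - α) = 2 * α * x0 + β - 2 * z x0 * l :=
        mul_left_cancel₀ a2 (by rw [c1] at a1; linear_combination a1 + h0)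
      have d2 : (u'.1 - x0) * (l ^ 2 - α) = 2 * α * x0 + β - 2 * z x0 * l :=
        mul_left_cancel₀ b2 (by rw [c2] at b1; linear_combination b1 + h0)
      have e1 : u.1 = u'.1 := by
        by_contra hne
        have f1 : l ^ 2 - α = 0 :=
          mul_left_cancel₀ (sub_ne_zero.2 hne) (by linear_combination d1 - d2)
        have f2 : 2 * α * x0 + β = 2 * z x0 * l := by rw [f1] at d1; linear_combination -d1
        exact hd (by
          linear_combination (2 * α * x0 + β + 2 * z x0 * l) * f2 + 4 * z x0 ^ 2 * f1 - 4 * α * h0)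
      have e2 : s u = s u' := by rw [c1, c2, e1]
      refine Prod.ext e1 ?_
      by_contra hne
      have : 2 * z u.1 = 0 := by
        simp only [s, ← e1] at e2
        cases h : u.2 <;> cases h' : u'.2 <;> simp [h, h'] at hne e2
        · linear_combination -e2
        · linear_combination e2
      exact mul_ne_zero h2 a3 this
  rw [card_product, card_erase_of_mem hx0, card_univ, card_univ, Fintype.card_bool] at key
  omega

variable {κ K : Type} [Field κ] [Field K] [Algebra κ K]

/-- the property holds off a hypersurface of degree at most `d` -/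
def Gen (K : Type) [Field K] [Algebra κ K] (d : ℕ) (P : (Fin 3 → κ) → Prop) : Prop :=
  ∃ f : MvPolynomial (Fin 3) K, f ≠ 0 ∧ f.totalDegree ≤ d ∧
    ∀ x : Fin 3 → κ, eval (fun i => algebraMap κ K (x i)) f ≠ 0 → P x

theorem Gen.mono {d e : ℕ} {P Q : (Fin 3 → κ) → Prop} (h : Gen K d P) (hd : d ≤ e)
    (hP : ∀ x, P x → Q x) : Gen K e Q := by
  obtain ⟨f, a, b, c⟩ := h
  exact ⟨f, a, b.trans hd, fun x hx => hP x (c x hx)⟩

theorem Gen.and {d e : ℕ} {P Q : (Fin 3 → κ) → Prop} (h : Gen K d P) (h' : Gen K e Q) :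
    Gen K (d + e) fun x => P x ∧ Q x := by
  obtain ⟨f, a, b, c⟩ := h
  obtain ⟨f', a', b', c'⟩ := h'
  refine ⟨f * f', mul_ne_zero a a', (totalDegree_mul _ _).trans (add_le_add b b'), fun x hx => ?_⟩
  rw [map_mul] at hx
  exact ⟨c x (left_ne_zero_of_mul hx), c' x (right_ne_zero_of_mul hx)⟩

theorem Gen.all {ι : Type} (T : Finset ι) {d : ℕ} {P : ι → (Fin 3 → κ) → Prop}
    (h : ∀ i ∈ T, Gen K d (P i)) : Gen K (T.card * d) fun x => ∀ i ∈ T, P i x := by
  classical
  induction T using Finset.induction_on with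
  | empty => exact ⟨1, one_ne_zero, by simp, by simp⟩
  | insert a T ha ih =>
    refine ((h a (mem_insert_self _ _)).and (ih fun i hi => h i (mem_insert_of_mem hi))).mono
      (by rw [card_insert_of_notMem ha]; exact le_of_eq (by ring)) fun x hx i hi => ?_
    rcases mem_insert.1 hi with e | e
    · exact e ▸ hx.1
    · exact hx.2 i e

theorem Gen.ex [Finite κ] {d : ℕ} {P : (Fin 3 → κ) → Prop} (h : Gen K d P)
    (hd : d < Nat.card κ) : ∃ x, P x := by
  classical
  obtain ⟨f, a, b, c⟩ := h
  have := Fintype.ofFinite κ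
  by_contra hc
  refine a (eq_zero_of_eval_zero_at_prod_finset f (fun _ => univ.image (algebraMap κ K))
    (fun i => ?_) fun x hx => ?_)
  · rw [card_image_of_injective _ (algebraMap κ K).injective, card_univ,
      ← Nat.card_eq_fintype_card]
    exact lt_of_le_of_lt ((degreeOf_le_totalDegree f i).trans b) hd
  · choose y _ hy using fun i => mem_image.1 (hx i)
    by_contra hne
    exact hc ⟨y, c y (by rwa [funext hy])⟩

theorem deg_aff {A : Type} [CommRing A] [Algebra K A] (D : A → ℕ) (h1 : ∀ c, D (algebraMap K A c) = 0)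
    (h2 : ∀ a b, D (a + b) ≤ max (D a) (D b)) (h3 : ∀ a b, D (a * b) ≤ D a + D b)
    (g : Fin 3 → A) (hg : ∀ i, D (g i) ≤ 1) (f : MvPolynomial (Fin 3) K) :
    D (aeval g f) ≤ f.totalDegree := by
  have h0 : D 0 = 0 := by simpa using h1 0
  have h1' : D 1 = 0 := by simpa using h1 1
  have hp : ∀ i n, D (g i ^ n) ≤ n := fun i n => by
    induction n with
    | zero => simp [h1']
    | succ n ih => rw [pow_succ]; exact (h3 _ _).trans (add_le_add ih (hg i))
  rw [aeval_def, eval₂_eq']
  refine Finset.sum_induction _ (fun a => D a ≤ f.totalDegree)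
    (fun a b ha hb => (h2 a b).trans (max_le ha hb)) (by simp [h0]) fun m hm => ?_
  have e := le_totalDegree hm
  rw [Finsupp.sum_fintype _ _ (by simp), Fin.sum_univ_three] at e
  rw [Fin.prod_univ_three]
  have a1 := h3 (algebraMap K A (coeff m f)) (g 0 ^ m 0 * g 1 ^ m 1 * g 2 ^ m 2)
  have a2 := h3 (g 0 ^ m 0 * g 1 ^ m 1) (g 2 ^ m 2)
  have a3 := h3 (g 0 ^ m 0) (g 1 ^ m 1)
  have := hp 0 (m 0); have := hp 1 (m 1); have := hp 2 (m 2)
  rw [h1] at a1
  omega

theorem eval_aeval {A : Type} [CommRing A] [Algebra K A] (φ : A →ₐ[K] K) (g : Fin 3 → A)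
    (f : MvPolynomial (Fin 3) K) : φ (aeval g f) = eval (fun i => φ (g i)) f := by
  rw [← AlgHom.comp_apply, comp_aeval]; rfl

/-- translation -/
theorem Gen.shift {d : ℕ} {P : (Fin 3 → κ) → Prop} (h : Gen K d P) (y : Fin 3 → κ) :
    Gen K d fun x => P (x + y) := by
  obtain ⟨f, a, b, c⟩ := h
  refine ⟨aeval (fun i => X i + C (algebraMap κ K (y i))) f, fun e => a ?_, le_trans ?_ b,
    fun x hx => c _ ?_⟩
  · have e2 := congrArg (aeval fun i => (X i - C (algebraMap κ K (y i)) : MvPolynomial (Fin 3) K)) e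
    rw [← AlgHom.comp_apply, comp_aeval] at e2
    simpa using e2
  · refine deg_aff (A := MvPolynomial (Fin 3) K) (fun p => p.totalDegree)
      (fun c => totalDegree_C c) (fun p q => totalDegree_add p q) (fun p q => totalDegree_mul p q) _
      (fun i => (totalDegree_add _ _).trans ?_) f
    simp [totalDegree_X]
  · have e := eval_aeval (aeval fun i => algebraMap κ K (x i))
      (fun i => (X i + C (algebraMap κ K (y i)) : MvPolynomial (Fin 3) K)) f
    intro e'
    refine hx (e.trans ?_)
    simpa using e'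

/-- a polynomial over the small field that is nonzero at some point -/
theorem gen_of {d : ℕ} (f : MvPolynomial (Fin 3) κ) (hf : f ≠ 0) (hd : f.totalDegree ≤ d) :
    Gen K d fun x => eval x f ≠ 0 := by
  refine ⟨map (algebraMap κ K) f, fun e => hf (map_injective _ (algebraMap κ K).injective
    (by rw [e, map_zero])), le_trans (Finset.sup_mono (support_map_subset _ _)) hd, fun x hx e => hx ?_⟩
  have := map_eval (algebraMap κ K) x f
  rw [e, map_zero] at this
  exact this.symm

/-- a generic property holds at all but a few points of a suitable line in a given direction -/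
theorem Gen.line [Finite κ] {d e : ℕ} {P Q : (Fin 3 → κ) → Prop} (h : Gen K d P) (h' : Gen K e Q)
    (hd : d + e < Nat.card κ) :
    ∃ x, Q x ∧ ∀ y : Fin 3 → κ, ∃ T : Finset κ, T.card ≤ d ∧ ∀ t, t ∉ T → P (x + t • y) := by
  classical
  obtain ⟨f, a, b, c⟩ := h
  obtain ⟨x, hx, hQ⟩ := (Gen.and (K := K) ⟨f, a, b, fun _ h => h⟩ h').ex hd
  refine ⟨x, hQ, fun y => ?_⟩
  let p : Polynomial K := aeval (fun i => Polynomial.C (algebraMap κ K (x i)) +
    Polynomial.C (algebraMap κ K (y i)) * .X) f
  have ev : ∀ t : κ, p.eval (algebraMap κ K t) =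
      eval (fun i => algebraMap κ K ((x + t • y) i)) f := fun t => by
    refine (eval_aeval (Polynomial.aeval (algebraMap κ K t)) _ f).trans ?_
    congr 2
    funext i
    simp only [map_add, map_mul, Polynomial.aeval_C, Polynomial.aeval_X, Pi.add_apply,
      Pi.smul_apply, smul_eq_mul, Algebra.algebraMap_self, RingHom.id_apply]
    ring
  have hp : p ≠ 0 := fun e => hx (by have := ev 0; rw [e] at this; simpa using this.symm)
  have hn : p.natDegree ≤ d := le_trans (deg_aff (A := Polynomial K) (fun p => p.natDegree)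
    (fun c => Polynomial.natDegree_C c) (fun p q => Polynomial.natDegree_add_le p q)
    (fun _ _ => Polynomial.natDegree_mul_le) _ (fun i => by
      rw [add_comm]; exact Polynomial.natDegree_linear_le) f) b
  refine ⟨p.roots.toFinset.preimage _ (algebraMap κ K).injective.injOn, ?_, fun t ht => c _ ?_⟩
  · exact (card_le_card_of_injOn (algebraMap κ K) (fun t ht => by simpa using ht)
      (algebraMap κ K).injective.injOn).trans
      ((Multiset.toFinset_card_le _).trans ((Polynomial.card_roots' p).trans hn))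
  · rw [← ev]
    intro e
    exact ht (mem_preimage.2 (Multiset.mem_toFinset.2 ((Polynomial.mem_roots hp).2 e)))

end Pool.Agent.P.MP_b8021b_nt.CT
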