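import Pool.Agent.P.MP_b8021b_nt.CH.St

/-! The parity of the order of the discriminant, double lines, and certificates. -/

namespace Pool.Agent.P.MP_b8021b_nt.CT

open CH MvPolynomial

section

variable {R : Type} [CommRing R] [IsDomain R] [IsDiscreteValuationRing R] {π : R}

theorem unit_or (hπ : Irreducible π) (x : R) : IsUnit x ∨ π ∣ x := by
  refine (em _).imp_right fun h => ?_
  rw [← Ideal.mem_span_singleton, ← (IsDiscreteValuationRing.irreducible_iff_uniformizer π).1 hπ]
  exact h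

theorem pow_unit (hπ : Irreducible π) {x : R} (hx : x ≠ 0) :
    ∃ (k : ℕ) (u : R), IsUnit u ∧ x = π ^ k * u := by
  obtain ⟨k, u, e⟩ := IsDiscreteValuationRing.eq_unit_mul_pow_irreducible hx hπ
  exact ⟨k, u, u.isUnit, by rw [e, mul_comm]⟩

theorem pow_unit_eq (hπ : Irreducible π) {k l : ℕ} {u u' : R} (hu : IsUnit u) (hu' : IsUnit u')
    (e : π ^ k * u = π ^ l * u') : k = l := by
  obtain ⟨u, rfl⟩ := hu
  obtain ⟨u', rfl⟩ := hu'
  exact IsDiscreteValuationRing.unit_mul_pow_congr_pow hπ hπ u u' k l (by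
    rw [mul_comm, e, mul_comm])

/-- a nonzero vector is a power of the uniformiser times a primitive vector -/
theorem prim_part (hπ : Irreducible π) {ι : Type} (x : ι → R) (hx : x ≠ 0) :
    ∃ (k : ℕ) (y : ι → R), (∃ i, IsUnit (y i)) ∧ x = π ^ k • y := by
  obtain ⟨i, hi⟩ := Function.ne_iff.1 hx
  obtain ⟨k, u, hu, e⟩ := pow_unit hπ hi
  induction k generalizing x with
  | zero => exact ⟨0, x, ⟨i, by simpa [e] using hu⟩, by simp⟩
  | succ k ih =>
    by_cases h : ∃ j, IsUnit (x j)
    · exact ⟨0, x, h, by simp⟩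
    choose y hy using fun j => (unit_or hπ (x j)).resolve_left fun a => h ⟨j, a⟩
    have e' : y i = π ^ k * u := mul_left_cancel₀ hπ.ne_zero (by rw [← hy, e]; ring)
    have hi' : y i ≠ 0 := fun a => hi (by rw [hy, a]; simp)
    obtain ⟨l, z, a, b⟩ := ih y (fun a => hi' (by simp [a])) hi' e'
    exact ⟨l + 1, z, a, funext fun j => by rw [hy, b]; simp [pow_succ]; ring⟩

/-- an isotropic conic whose binary part has unit discriminant -/
theorem parity (hπ : Irreducible π) {a b c d e f x y z : R} (h0 : x ≠ 0 ∨ y ≠ 0 ∨ z ≠ 0)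
    (hQ : Qf a b c d e f x y z = 0) (hE : IsUnit (b ^ 2 - 4 * (a * c)))
    (hd : dl a b c d e f ≠ 0) :
    (∃ r, π ∣ r ^ 2 - b * r + a * c) ∨ ∃ (k : ℕ) (u : R), IsUnit u ∧
      dl a b c d e f = π ^ (2 * k) * u := by
  set E := b ^ 2 - 4 * (a * c) with hEd
  let w : Fin 2 → R := ![E * x + (b * e - 2 * c * d) * z, E * y + (b * d - 2 * a * e) * z]
  have key : a * w 0 ^ 2 + b * w 0 * w 1 + c * w 1 ^ 2 = E * dl a b c d e f * z ^ 2 := by
    simp only [w, Matrix.cons_val_zero, Matrix.cons_val_one, Qf, dl, hEd] at hQ ⊢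
    linear_combination (b ^ 2 - 4 * (a * c)) ^ 2 * hQ
  have hw : w ≠ 0 := fun h => by
    have hz : z = 0 := by
      rw [h] at key
      simpa [hE.ne_zero, hd] using key.symm
    have a0 := congrFun h 0
    have a1 := congrFun h 1
    simp [w, hz, hE.ne_zero] at a0 a1
    simp [hz, a0, a1] at h0
  obtain ⟨k, t, ht, e1⟩ := prim_part hπ w hw
  have k2 : π ^ (2 * k) * (a * t 0 ^ 2 + b * t 0 * t 1 + c * t 1 ^ 2) =
      E * dl a b c d e f * z ^ 2 := by
    rw [← key, e1]; simp only [Pi.smul_apply, smul_eq_mul]; ring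
  rcases unit_or hπ (a * t 0 ^ 2 + b * t 0 * t 1 + c * t 1 ^ 2) with hu | hu
  · right
    have hz : z ≠ 0 := fun h => by
      rw [h] at k2
      simp [hπ.ne_zero, hu.ne_zero] at k2
    obtain ⟨l, u, h1, h2⟩ := pow_unit hπ hz
    obtain ⟨m, u', h3, h4⟩ := pow_unit hπ hd
    have := pow_unit_eq hπ hu ((hE.mul h3).mul (h1.pow 2)) (k := 2 * k) (l := m + 2 * l) (by
      rw [k2, h4, h2]; ring)
    exact ⟨k - l, u', h3, by rw [h4]; congr 2; omega⟩
  · left
    obtain ⟨i, hi⟩ := ht
    obtain ⟨s, hs⟩ := hi.exists_right_inv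
    fin_cases i
    · refine ⟨-(c * t 1 * s), ?_⟩
      convert hu.mul_left (c * s ^ 2) using 1
      simp only [Fin.zero_eta] at hs
      linear_combination (-(a * c) * (1 + t 0 * s) - b * c * t 1 * s) * hs
    · refine ⟨-(a * t 0 * s), ?_⟩
      convert hu.mul_left (a * s ^ 2) using 1
      simp only [Fin.mk_one] at hs
      linear_combination (-(a * c) * (1 + t 1 * s) - b * a * t 0 * s) * hs

end

/-- the derivative of the discriminant vanishes at a double line -/
theorem dl_deriv {K : Type} [Field K] {a b c d e f : K} (h : dl a b c d e f = 0)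
    (h3 : b ^ 2 - 4 * (a * c) = 0) (h2 : d ^ 2 - 4 * (a * f) = 0) :
    d * e - 2 * f * b = 0 ∧ b * e - 2 * c * d = 0 ∧ b * d - 2 * a * e = 0 := by
  simp only [dl] at h
  refine ⟨pow_eq_zero_iff two_ne_zero |>.1 ?_, pow_eq_zero_iff two_ne_zero |>.1 ?_,
    pow_eq_zero_iff two_ne_zero |>.1 ?_⟩
  · linear_combination (e ^ 2 - 4 * (c * f)) * h2 - 4 * f * h
  · linear_combination (e ^ 2 - 4 * (c * f)) * h3 - 4 * c * h
  · linear_combination (d ^ 2 - 4 * (a * f)) * h3 - 4 * a * h

theorem pderiv_dl {R σ : Type} [CommRing R] (i : σ) (a b c d e f : MvPolynomial σ R) :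
    pderiv i (dl a b c d e f) = -(e ^ 2 - 4 * (c * f)) * pderiv i a +
      (d * e - 2 * f * b) * pderiv i b - (d ^ 2 - 4 * (a * f)) * pderiv i c +
      (b * e - 2 * c * d) * pderiv i d + (b * d - 2 * a * e) * pderiv i e -
      (b ^ 2 - 4 * (a * c)) * pderiv i f := by
  have h4 : pderiv i (4 : MvPolynomial σ R) = 0 := by
    exact_mod_cast (pderiv i).map_natCast (R := R) 4
  simp only [dl, map_add, map_sub, Derivation.leibniz, Derivation.leibniz_pow, h4, smul_eq_mul,
    nsmul_eq_mul]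
  push_cast
  ring

/-- every variable has a power in the ideal, up to the factor `N` -/
def Cert {A ι : Type} [CommRing A] (N : A) (fs : ι → MvPolynomial (Fin 3) A) : Prop :=
  ∃ k : ℕ, ∀ i, C N * X i ^ k ∈ Ideal.span (Set.range fs)

theorem Cert.map {A B ι : Type} [CommRing A] [CommRing B] (ρ : A →+* B) {N : A}
    {fs : ι → MvPolynomial (Fin 3) A} (h : Cert N fs) :
    Cert (ρ N) fun j => map ρ (fs j) := by
  obtain ⟨k, h⟩ := h
  refine ⟨k, fun i => ?_⟩
  have := Ideal.mem_map_of_mem (MvPolynomial.map ρ) (h i)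
  rw [Ideal.map_span, ← Set.range_comp] at this
  simpa [Function.comp_def] using this

/-- at a primitive point one of the forms is at least as large as `N` -/
theorem Cert.val {A F Γ ι : Type} [CommRing A] [Field F] [Algebra A F]
    [LinearOrderedCommGroupWithZero Γ] (v : Valuation F Γ) (hv : ∀ r, v (algebraMap A F r) ≤ 1)
    {N : A} {fs : ι → MvPolynomial (Fin 3) A} (h : Cert N fs) (P : Fin 3 → F)
    (hP : ∀ i, v (P i) ≤ 1) (h1 : ∃ i, v (P i) = 1) {t : Γ} (ht : ∀ j, v (aeval P (fs j)) ≤ t) :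
    v (algebraMap A F N) ≤ t := by
  obtain ⟨k, h⟩ := h
  obtain ⟨i, hi⟩ := h1
  have a0 : ∀ f : MvPolynomial (Fin 3) A, v (aeval P f) ≤ 1 := fun f => by
    induction f using MvPolynomial.induction_on with
    | C a => simpa using hv a
    | add p q hp hq => rw [map_add]; exact v.map_add_le hp hq
    | mul_X p i hp => rw [map_mul, map_mul, aeval_X]; exact mul_le_one' hp (hP i)
  have a1 : ∀ f ∈ Ideal.span (Set.range fs), v (aeval P f) ≤ t := fun f hf => by
    induction hf using Submodule.span_induction with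
    | mem f hf => obtain ⟨j, rfl⟩ := hf; exact ht j
    | zero => simp
    | add p q _ _ hp hq => rw [map_add]; exact v.map_add_le hp hq
    | smul a p _ hp =>
      rw [smul_eq_mul, map_mul, map_mul]
      simpa using mul_le_mul' (a0 a) hp
  simpa [hi] using a1 _ (h i)

/-- the same for divisibility -/
theorem Cert.dvd {A ι : Type} [CommRing A] {N : A} {fs : ι → MvPolynomial (Fin 3) A}
    (h : Cert N fs) (P : Fin 3 → A) (h1 : ∃ i, IsUnit (P i)) {t : A}
    (ht : ∀ j, t ∣ aeval P (fs j)) : t ∣ N := by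
  obtain ⟨k, h⟩ := h
  obtain ⟨i, hi⟩ := h1
  have a1 : ∀ f ∈ Ideal.span (Set.range fs), t ∣ aeval P f := fun f hf => by
    induction hf using Submodule.span_induction with
    | mem f hf => obtain ⟨j, rfl⟩ := hf; exact ht j
    | zero => simp
    | add p q _ _ hp hq => rw [map_add]; exact dvd_add hp hq
    | smul a p _ hp => rw [smul_eq_mul, map_mul]; exact hp.mul_left _
  have := a1 _ (h i)
  simp only [map_mul, map_pow, aeval_X, aeval_C, Algebra.algebraMap_self, RingHom.id_apply] at this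
  exact (hi.pow k).dvd_mul_right.1 this

/-- forms without common zero have a certificate -/
theorem exists_cert {A k K ι : Type} [CommRing A] [IsDomain A] [Field k] [Field K] [Algebra A k]
    [IsFractionRing A k] [Algebra k K] [IsAlgClosed K] [Algebra A K] [IsScalarTower A k K]
    (fs : ι → MvPolynomial (Fin 3) A)
    (h : ∀ P : Fin 3 → K, (∀ j, aeval P (fs j) = 0) → P = 0) : ∃ N : A, N ≠ 0 ∧ Cert N fs := by
  let I := Ideal.span (Set.range fs)
  let _ : Algebra (MvPolynomial (Fin 3) A) (MvPolynomial (Fin 3) k) := algebraMvPolynomial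
  have hl := MvPolynomial.isLocalization (σ := Fin 3) (nonZeroDivisors A) k
  have h1 : ∀ i, ∃ (n : ℕ) (N : A), N ≠ 0 ∧ C N * X i ^ n ∈ I := fun i => by
    have a1 : X i ∈ (I.map (MvPolynomial.map (algebraMap A k))).radical := by
      rw [← vanishingIdeal_zeroLocus_eq_radical (K := K)]
      intro P hP
      have : P = 0 := h P fun j => by
        have := hP _ (Ideal.mem_map_of_mem _ (Ideal.subset_span ⟨j, rfl⟩))
        rwa [aeval_map_algebraMap] at this
      simp [this]
    obtain ⟨n, hn⟩ := a1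
    have a2 : algebraMap (MvPolynomial (Fin 3) A) (MvPolynomial (Fin 3) k) (X i ^ n) ∈
        I.map (algebraMap (MvPolynomial (Fin 3) A) (MvPolynomial (Fin 3) k)) := by
      change MvPolynomial.map (algebraMap A k) (X i ^ n) ∈ _
      rw [map_pow, map_X]
      exact hn
    obtain ⟨m, ⟨N, hN, rfl⟩, hm⟩ := (IsLocalization.algebraMap_mem_map_algebraMap_iff
      ((nonZeroDivisors A).map (C : A →+* MvPolynomial (Fin 3) A)) _ I _).1 a2
    exact ⟨n, N, nonZeroDivisors.ne_zero hN, hm⟩
  choose n N hN hI using h1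
  refine ⟨∏ i, N i, Finset.prod_ne_zero_iff.2 fun i _ => hN i, ∑ i, n i, fun i => ?_⟩
  rw [← Finset.mul_prod_erase _ N (Finset.mem_univ i), ← Finset.add_sum_erase _ n (Finset.mem_univ i),
    map_mul, pow_add, mul_mul_mul_comm]
  exact I.mul_mem_right _ (hI i)

end Pool.Agent.P.MP_b8021b_nt.CT
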