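import Pool.Agent.P.MP_b8021b_nt.CT.ToolA
import Pool.Agent.P.MP_b8021b_nt.CT.ToolB
import Pool.Agent.P.MP_b8021b_nt.CT.ToolC

/-! Local definitions for the chain of lines in the plane. -/

namespace Pool.Agent.P.MP_b8021b_nt.CT

open CH MvPolynomial
open scoped WithZero

/-- the six coefficient forms of a cubic that contains a line -/
structure Fm (R : Type) [CommRing R] where
  l1 : MvPolynomial (Fin 3) R
  l2 : MvPolynomial (Fin 3) R
  l3 : MvPolynomial (Fin 3) R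
  q1 : MvPolynomial (Fin 3) R
  q2 : MvPolynomial (Fin 3) R
  c : MvPolynomial (Fin 3) R
  h1 : l1.IsHomogeneous 1
  h2 : l2.IsHomogeneous 1
  h3 : l3.IsHomogeneous 1
  h4 : q1.IsHomogeneous 2
  h5 : q2.IsHomogeneous 2
  h6 : c.IsHomogeneous 3

namespace Fm

variable {R : Type} [CommRing R] (a : Fm R)

/-- the discriminant quintic -/
noncomputable def dd : MvPolynomial (Fin 3) R := dl a.l1 a.l2 a.l3 a.q1 a.q2 a.c

noncomputable def jj : Fin 3 → MvPolynomial (Fin 3) R := ![a.l2, a.q1, a.q2]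

noncomputable def cc : Fin 3 → MvPolynomial (Fin 3) R := ![a.l1 * a.l3, a.l1 * a.c, a.l3 * a.c]

/-- the three discriminants of the binary parts -/
noncomputable def ee (i : Fin 3) : MvPolynomial (Fin 3) R := a.jj i ^ 2 - 4 * a.cc i

/-- the quintic and its derivatives -/
noncomputable def sg : Option (Fin 3) → MvPolynomial (Fin 3) R :=
  fun o => o.elim a.dd fun i => pderiv i a.dd

noncomputable def tl : Fin 3 → MvPolynomial (Fin 3) R := ![a.l1, a.l2, a.q1]

theorem hdd : a.dd.IsHomogeneous 5 := by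
  have h4 : (4 : MvPolynomial (Fin 3) R).IsHomogeneous 0 := by
    exact_mod_cast isHomogeneous_C (Fin 3) (4 : R)
  exact ((((((h4.mul a.h1).mul a.h3).mul a.h6).add ((a.h2.mul a.h4).mul a.h5)).sub
    (a.h1.mul (a.h5.pow 2))).sub (a.h3.mul (a.h4.pow 2))).sub (a.h6.mul (a.h2.pow 2))

theorem hee (i : Fin 3) : ∃ k, (a.ee i).IsHomogeneous (2 * (k + 1)) := by
  have h4 : (4 : MvPolynomial (Fin 3) R).IsHomogeneous 0 := by
    exact_mod_cast isHomogeneous_C (Fin 3) (4 : R)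
  fin_cases i
  · exact ⟨0, (a.h2.pow 2).sub (h4.mul (a.h1.mul a.h3))⟩
  · exact ⟨1, (a.h4.pow 2).sub (h4.mul (a.h1.mul a.h6))⟩
  · exact ⟨1, (a.h5.pow 2).sub (h4.mul (a.h3.mul a.h6))⟩

variable {S : Type} [CommRing S] [Algebra R S]

theorem aeval_ee (P : Fin 3 → S) (i : Fin 3) :
    aeval P (a.ee i) = aeval P (a.jj i) ^ 2 - 4 * aeval P (a.cc i) := by
  simp [ee, map_ofNat]

theorem aeval_dd (P : Fin 3 → S) : aeval P a.dd = dl (aeval P a.l1) (aeval P a.l2) (aeval P a.l3)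
    (aeval P a.q1) (aeval P a.q2) (aeval P a.c) := by
  simp [dd, dl, map_ofNat]

/-- a point over which the conic is a double line is singular on the quintic -/
theorem sing_of_xi {K : Type} [Field K] [Algebra R K] (P : Fin 3 → K) (h : aeval P a.dd = 0)
    (he : ∀ i, aeval P (a.ee i) = 0) (i : Fin 3) : aeval P (pderiv i a.dd) = 0 := by
  have e0 := he 0
  have e1 := he 1
  have e2 := he 2
  rw [aeval_ee] at e0 e1 e2
  simp only [jj, cc, Matrix.cons_val_zero, Matrix.cons_val_one, Matrix.cons_val, map_mul]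
    at e0 e1 e2
  obtain ⟨m1, m2, m3⟩ := dl_deriv (a.aeval_dd P ▸ h) e0 e1
  simp only [dd, pderiv_dl, map_add, map_sub, map_mul, map_neg, map_pow, map_ofNat, e0, e1, e2,
    m1, m2, m3]
  ring

end Fm

variable {R : Type} [CommRing R]

/-- a valued field over `R` in which `π` is small -/
structure Ext (π : R) (F : Type) [Field F] [Algebra R F] (v : Valuation F ℤᵐ⁰) : Prop where
  le : ∀ x, v (algebraMap R F x) ≤ 1
  lt : v (algebraMap R F π) < 1
  ne : algebraMap R F π ≠ 0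

/-- the image of a vector -/
abbrev up (F : Type) [CommRing F] [Algebra R F] (y : Fin 3 → R) : Fin 3 → F :=
  fun i => algebraMap R F (y i)

/-- the local norm condition at the point `P` -/
def Good (a : Fm R) {F : Type} [Field F] [Algebra R F] (v : Valuation F ℤᵐ⁰) (θ : F)
    (P : Fin 3 → F) : Prop :=
  ∃ i, OK v θ (aeval P (a.ee i))

/-- all points of the quintic near the line through `c` and `c'` are good; if `s` holds, for any
scale -/
def Tooth (a : Fm R) (π : R) (s : Prop) (c c' : Fin 3 → R) : Prop :=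
  ∃ G : ℕ, ∀ (F : Type) [Field F] [Algebra R F] (v : Valuation F ℤᵐ⁰), Ext π F v →
    ∀ (r θ : F) (P : Fin 3 → F), r ≠ 0 →
      (∀ i, v (P i - (up F c i + r * up F c' i)) ≤ v (algebraMap R F π) ^ G * max 1 (v r)) →
      aeval P a.dd = 0 → (s ∨ ∃ y, v (θ * y ^ 2) = v r) → Good a v θ P

/-- the points of the quintic near the point `y` in the direction `n` are good -/
def End (a : Fm R) (π : R) (y n : Fin 3 → R) : Prop :=
  ∃ G : ℕ, ∀ (F : Type) [Field F] [Algebra R F] (v : Valuation F ℤᵐ⁰), Ext π F v →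
    ∀ (ρ : F) (P : Fin 3 → F), v ρ < 1 →
      (∀ i, v (P i - (up F y i + ρ * up F n i)) ≤ v (algebraMap R F π) ^ G) →
      aeval P a.dd = 0 → Good a v ρ P

/-- the reduction of the line spanned by `y` and `n` contains no point with a double line -/
def Line (a : Fm R) (π : R) (y n : Fin 3 → R) : Prop :=
  ∀ (K : Type) [Field K] [Algebra R K], algebraMap R K π = 0 → ∀ s t : K, (s ≠ 0 ∨ t ≠ 0) →
    aeval (s • up K y + t • up K n) a.dd = 0 → ∃ i, aeval (s • up K y + t • up K n) (a.ee i) ≠ 0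

/-- a chain of `m` lines -/
def Chain (a : Fm R) (π : R) (m : ℕ) (c c' : Fin 3 → R) : Prop :=
  ∃ f : ℕ → Fin 3 → R, f 0 = c ∧ f m = c' ∧ ∀ i < m, Tooth a π False (f i) (f (i + 1))

/-- the quintic has at most `n` singular points over `K`, all nodes, and none in characteristic
two -/
def Nod (a : Fm R) (K : Type) [Field K] [Algebra R K] (n : ℕ) : Prop :=
  (∀ P : Fin 3 → K, P ≠ 0 → (∀ o, aeval P (a.sg o) = 0) → (2 : K) ≠ 0 ∧ ∃ i j i' j',
    aeval P (pderiv i (pderiv j a.dd)) * aeval P (pderiv i' (pderiv j' a.dd)) ≠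
      aeval P (pderiv i (pderiv j' a.dd)) * aeval P (pderiv i' (pderiv j a.dd))) ∧
  ∃ T : Finset (Fin 3 → K), T.card ≤ n ∧ ∀ P : Fin 3 → K, P ≠ 0 → (∀ o, aeval P (a.sg o) = 0) →
    ∃ ξ ∈ T, ∃ c : K, P = c • ξ

/-- the conic over `y` has a point -/
def Iso (a : Fm R) (y : Fin 3 → R) : Prop :=
  ∃ y1 y2 z : R, (y1 ≠ 0 ∨ y2 ≠ 0 ∨ z ≠ 0) ∧ Qf (aeval y a.l1) (aeval y a.l2) (aeval y a.l3)
    (aeval y a.q1) (aeval y a.q2) (aeval y a.c) y1 y2 z = 0

/-- an end point that needs no preparation -/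
def Simple (a : Fm R) (π : R) (y : Fin 3 → R) : Prop :=
  IsUnit (aeval y a.dd) ∨ ∃ i, IsUnit (aeval y (a.ee i)) ∧
    ((∃ r, π ∣ r ^ 2 - aeval y (a.jj i) * r + aeval y (a.cc i)) ∨
      ((∃ j, IsUnit (aeval y (pderiv j a.dd))) ∧
        ∃ (k : ℕ) (u : R), IsUnit u ∧ aeval y a.dd = π ^ (2 * k) * u))

/-- the local statement: a polynomial curve from `b` to `o` with prescribed approximate
coefficients has only good points on the quintic -/
def S_Loc : Prop :=
  ∀ (R κ K : Type) [CommRing R] [IsDomain R] [IsDiscreteValuationRing R] [Field κ] [Finite κ]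
    [Algebra R κ] [Field K] [IsAlgClosed K] [Algebra κ K] [Algebra R K] [IsScalarTower R κ K]
    (π : R) (a : Fm R) (n : ℕ) (N N1 : R) (b o : Fin 3 → R), Irreducible π →
    Function.Surjective (algebraMap R κ) → algebraMap R κ π = 0 → 4 * n + 40 ≤ Nat.card κ →
    Nod a K n → N ≠ 0 → N1 ≠ 0 → Cert N a.sg → Cert N1 a.tl → aeval b a.dd ≠ 0 → Iso a b →
    (∃ (k : ℕ) (b0 : Fin 3 → R), b = π ^ k • b0 ∧
      (IsUnit (aeval b0 a.dd) ∨ ∃ i, IsUnit (aeval b0 (a.ee i)))) →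
    aeval o a.l1 = 0 → aeval o a.dd ≠ 0 →
    ∃ m0 : ℕ, ∀ m, m0 ≤ m → ∃ M0 : ℕ, ∀ lam : R, lam ≠ 0 → π ^ M0 ∣ lam →
      ∃ (γ : ℕ → Fin 3 → R) (N' : ℕ), ∀ β : ℕ → Fin 3 → R, β 0 = b → β m = lam • o →
        (∀ i, 0 < i → i < m → ∀ j, π ^ N' ∣ β i j - γ i j) →
        ∀ (F : Type) [Field F] [Algebra R F] (v : Valuation F ℤᵐ⁰), Ext π F v → ∀ θ : F,
          aeval (∑ i ∈ Finset.range (m + 1), θ ^ i • up F (β i)) a.dd = 0 →
          Good a v θ (∑ i ∈ Finset.range (m + 1), θ ^ i • up F (β i))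

theorem OK.congr {F Γ : Type} [Field F] [LinearOrderedCommGroupWithZero Γ] {v : Valuation F Γ}
    {ρ θ d : F} (h : OK v ρ d) (y μ : F) (hy : v (θ * y ^ 2) = v ρ) (hμ : μ ≠ 0) :
    OK v θ (μ ^ 2 * d) := by
  obtain ⟨z, j, c, h1, h2, h3, h4, h5⟩ := h
  refine ⟨z / μ, j, c, h1, h2, by rw [← h3]; field_simp, h4, h5.imp_left fun ⟨x, hx⟩ => ⟨y * x, ?_⟩⟩
  rw [mul_pow, ← mul_assoc, map_mul, hy, ← map_mul, hx]

theorem Good.congr {a : Fm R} {F : Type} [Field F] [Algebra R F] {v : Valuation F ℤᵐ⁰} {ρ θ : F}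
    {P : Fin 3 → F} (h : Good a v ρ P) (y μ : F) (hy : v (θ * y ^ 2) = v ρ) (hμ : μ ≠ 0) :
    Good a v θ (μ • P) := by
  obtain ⟨i, h⟩ := h
  obtain ⟨k, hk⟩ := a.hee i
  refine ⟨i, ?_⟩
  rw [aeval_smul hk, mul_comm 2, pow_mul]
  exact OK.congr h y _ hy (pow_ne_zero _ hμ)

theorem val_aeval_le {F : Type} [Field F] [Algebra R F] {π : R} {v : Valuation F ℤᵐ⁰}
    (h : Ext π F v) {P : Fin 3 → F} (hP : ∀ i, v (P i) ≤ 1) (f : MvPolynomial (Fin 3) R) :
    v (aeval P f) ≤ 1 := by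
  simpa using (fil_val v h.le le_rfl).aev (y := P) (by simpa using hP) f

/-- an integral point with a unit discriminant of a binary part -/
theorem good_of {a : Fm R} {F : Type} [Field F] [Algebra R F] {π : R} {v : Valuation F ℤᵐ⁰}
    (h : Ext π F v) {P : Fin 3 → F} (hP : ∀ i, v (P i) ≤ 1) {θ : F} (i : Fin 3)
    (hi : v (aeval P (a.ee i)) = 1) (hθ : (∃ y, v (θ * y ^ 2) = 1) ∨ ∃ r, v r ≤ 1 ∧
      v (r ^ 2 - aeval P (a.jj i) * r + aeval P (a.cc i)) < 1) : Good a v θ P :=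
  ⟨i, 1, _, _, val_aeval_le h hP _, val_aeval_le h hP _, by rw [a.aeval_ee]; ring,
    by rw [← a.aeval_ee, hi], hθ⟩

theorem aeval_up {F : Type} [CommRing F] [Algebra R F] (y : Fin 3 → R)
    (f : MvPolynomial (Fin 3) R) : aeval (up F y) f = algebraMap R F (aeval y f) :=
  aeval_algebraMap_apply F y f

theorem gr_up {F : Type} [CommRing F] [Algebra R F] (y n : Fin 3 → R)
    (f : MvPolynomial (Fin 3) R) : gr f (up F y) (up F n) = algebraMap R F (gr f y n) := by
  simp only [gr, aeval_up, map_sum, map_mul]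

theorem he_up {F : Type} [CommRing F] [Algebra R F] (y n k : Fin 3 → R)
    (f : MvPolynomial (Fin 3) R) :
    he f (up F y) (up F n) (up F k) = algebraMap R F (he f y n k) := by
  simp only [he, aeval_up, map_sum, map_mul]

theorem Ext.unit {F : Type} [Field F] [Algebra R F] {π : R} {v : Valuation F ℤᵐ⁰}
    (h : Ext π F v) {u : R} (hu : IsUnit u) : v (algebraMap R F u) = 1 := by
  obtain ⟨w, hw⟩ := hu.exists_right_inv
  refine le_antisymm (h.le u) ?_
  calc (1 : ℤᵐ⁰) = v (algebraMap R F u) * v (algebraMap R F w) := by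
        rw [← map_mul, ← map_mul, hw]; simp
    _ ≤ v (algebraMap R F u) * 1 := mul_le_mul' le_rfl (h.le w)
    _ = _ := mul_one _

theorem Ext.dvd {F : Type} [Field F] [Algebra R F] {π : R} {v : Valuation F ℤᵐ⁰}
    (h : Ext π F v) {x : R} {k : ℕ} (hx : π ^ k ∣ x) :
    v (algebraMap R F x) ≤ v (algebraMap R F π) ^ k := by
  obtain ⟨w, rfl⟩ := hx
  simpa using mul_le_mul' (le_refl (v (algebraMap R F π) ^ k)) (h.le w)

theorem Ext.pos {F : Type} [Field F] [Algebra R F] {π : R} {v : Valuation F ℤᵐ⁰}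
    (h : Ext π F v) : 0 < v (algebraMap R F π) :=
  zero_lt_iff.2 ((Valuation.ne_zero_iff v).2 h.ne)

end Pool.Agent.P.MP_b8021b_nt.CT
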