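import Pool.Agent.P.MP_b8021b_nt.CT.Defs

/-! The points of the quintic near an end point. -/

namespace Pool.Agent.P.MP_b8021b_nt.CT

open CH MvPolynomial
open scoped WithZero

variable {R : Type} [CommRing R] {a : Fm R} {π : R}

section

variable {F : Type} [Field F] [Algebra R F] {v : Valuation F ℤᵐ⁰}

theorem Ext.plt (h : Ext π F v) {k l : ℕ} (e : k < l) :
    v (algebraMap R F π) ^ l < v (algebraMap R F π) ^ k :=
  pow_lt_pow_right_of_lt_one₀ h.pos h.lt e

theorem Ext.ple (h : Ext π F v) {k l : ℕ} (e : k ≤ l) :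
    v (algebraMap R F π) ^ l ≤ v (algebraMap R F π) ^ k :=
  pow_le_pow_of_le_one zero_le h.lt.le e

theorem Ext.val (h : Ext π F v) {u : R} (hu : IsUnit u) (k : ℕ) :
    v (algebraMap R F (π ^ k * u)) = v (algebraMap R F π) ^ k := by
  simp [h.unit hu]

theorem Ext.lt1 (h : Ext π F v) {x : R} (hx : π ∣ x) : v (algebraMap R F x) < 1 :=
  (h.dvd (k := 1) (x := x) (by rwa [pow_one])).trans_lt (by simpa using h.lt)

theorem eq_of_add_lt {x y : F} (h : v (x + y) < max (v x) (v y)) : v x = v y := by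
  by_contra e
  rw [v.map_add_of_distinct_val e] at h
  exact lt_irrefl _ h

theorem near (h : Ext π F v) {y : Fin 3 → R} {P : Fin 3 → F} {t : ℤᵐ⁰} (ht : t < 1)
    (hP : ∀ i, v (P i - up F y i) ≤ t) :
    (∀ i, v (P i) ≤ 1) ∧ ∀ f : MvPolynomial (Fin 3) R,
      v (aeval P f - algebraMap R F (aeval y f)) < 1 := by
  refine ⟨fun i => ?_, fun f => ?_⟩
  · simpa using v.map_add_le ((hP i).trans ht.le) (h.le (y i))
  · have := (fil_val v h.le ht.le).tay1 (y := up F y) (h := P - up F y)
      (fun i => by simpa using h.le _) (fun i => by simpa using hP i) f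
    rw [add_sub_cancel, aeval_up, pow_one] at this
    exact this.trans_lt ht

theorem good_near (h : Ext π F v) {y : Fin 3 → R} {P : Fin 3 → F} {t : ℤᵐ⁰} (ht : t < 1)
    (hP : ∀ i, v (P i - up F y i) ≤ t) {θ : F} (i : Fin 3) (hi : IsUnit (aeval y (a.ee i)))
    (hθ : (∃ z, v (θ * z ^ 2) = 1) ∨ ∃ r, v r ≤ 1 ∧ v (r ^ 2 - algebraMap R F (aeval y (a.jj i)) * r
      + algebraMap R F (aeval y (a.cc i))) < 1) : Good a v θ P := by
  obtain ⟨h1, h2⟩ := near h ht hP
  refine good_of h h1 i ?_ (hθ.imp_right fun ⟨r, hr, e⟩ => ⟨r, hr, ?_⟩)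
  · rw [← h.unit hi]
    exact v.map_eq_of_sub_lt (by rw [h.unit hi]; exact h2 _)
  · have e1 : v ((aeval P (a.jj i) - algebraMap R F (aeval y (a.jj i))) * r) < 1 := by
      rw [map_mul]; exact (mul_le_of_le_one_right' hr).trans_lt (h2 _)
    convert v.map_add_lt (v.map_sub_lt e e1) (h2 (a.cc i)) using 2
    ring

theorem gr_le (h : Ext π F v) {y : Fin 3 → R} {k : ℕ} {f : MvPolynomial (Fin 3) R}
    (hk : ∀ i, π ^ k ∣ aeval y (pderiv i f)) {x : Fin 3 → F} {t : ℤᵐ⁰} (hx : ∀ i, v (x i) ≤ t) :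
    v (gr f (up F y) x) ≤ v (algebraMap R F π) ^ k * t :=
  v.map_sum_le fun i _ => by rw [map_mul, aeval_up]; exact mul_le_mul' (h.dvd (hk i)) (hx i)

theorem he_le (h : Ext π F v) (y : Fin 3 → R) (f : MvPolynomial (Fin 3) R) {x z : Fin 3 → F}
    {t : ℤᵐ⁰} (hx : ∀ i, v (x i) ≤ t) (hz : ∀ i, v (z i) ≤ 1) : v (he f (up F y) x z) ≤ t :=
  v.map_sum_le fun i _ => v.map_sum_le fun j _ => by
    rw [map_mul, map_mul, aeval_up]
    simpa using mul_le_mul' (mul_le_mul' (h.le _) (hx i)) (hz j)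

theorem step_le {y n P : Fin 3 → F} {ρ : F} {s g : ℤᵐ⁰} (hn : ∀ i, v (n i) ≤ s)
    (hP : ∀ i, v (P i - (y i + ρ * n i)) ≤ g) (i : Fin 3) : v (P i - y i) ≤ max (v ρ * s) g := by
  have e : v (ρ * n i) ≤ v ρ * s := by rw [map_mul]; exact mul_le_mul' le_rfl (hn i)
  convert v.map_add_le (e.trans (le_max_left _ g)) ((hP i).trans (le_max_right _ g)) using 2
  ring

end

/-- no point of the quintic is near -/
theorem end_none {y n : Fin 3 → R} {j : ℕ} {u : R} (hu : IsUnit u)
    (hy : aeval y a.dd = π ^ (2 * j) * u) (hg : ∀ i, π ^ j ∣ aeval y (pderiv i a.dd))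
    (hn : ∀ i, π ^ j ∣ n i) : End a π y n := by
  refine ⟨2 * j + 1, fun F _ _ v h ρ P hρ hP h0 => ?_⟩
  exfalso
  set p := v (algebraMap R F π) with hp
  have h1 := step_le (n := up F n) (fun i => h.dvd (hn i)) hP
  set t := max (v ρ * p ^ j) (p ^ (2 * j + 1))
  have hj : 0 < p ^ j := pow_pos h.pos j
  have ht : t < p ^ j := max_lt (by simpa using mul_lt_mul_of_pos_right hρ hj) (h.plt (by omega))
  have h2 := (fil_val v h.le (ht.le.trans (by simpa using h.ple (Nat.zero_le j)))).tay2
    (y := up F y) (h := P - up F y) (fun i => by simpa using h.le _)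
    (fun i => by simpa using h1 i) a.dd
  have h3 := gr_le h hg (x := P - up F y) h1
  have h4 : t ^ 2 < p ^ (2 * j) := by
    rw [mul_comm, pow_mul]; exact pow_lt_pow_left₀ ht zero_le two_ne_zero
  have h5 : p ^ j * t < p ^ (2 * j) := by
    rw [two_mul, pow_add]; exact mul_lt_mul_of_pos_left ht hj
  have h6 := v.map_add_lt (h2.trans_lt h4) (h3.trans_lt h5)
  rw [add_sub_cancel, h0, sub_add_cancel, zero_sub, v.map_neg, aeval_up, hy, h.val hu] at h6
  exact lt_irrefl _ h6

/-- the conic over the end point splits -/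
theorem end_split {y : Fin 3 → R} (n : Fin 3 → R) {i : Fin 3} (hi : IsUnit (aeval y (a.ee i)))
    {r : R} (hr : π ∣ r ^ 2 - aeval y (a.jj i) * r + aeval y (a.cc i)) : End a π y n := by
  refine ⟨1, fun F _ _ v h ρ P hρ hP _ => ?_⟩
  refine good_near h (max_lt (by simpa using hρ) (by simpa using h.lt))
    (step_le (n := up F n) (fun i => h.le _) hP) i hi (.inr ⟨algebraMap R F r, h.le r, ?_⟩)
  simpa only [map_add, map_sub, map_mul, map_pow] using h.lt1 hr

/-- a transversal direction at an end point of even order -/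
theorem end_trans {y n : Fin 3 → R} {j k : ℕ} {u u' : R} (hu : IsUnit u) (hu' : IsUnit u')
    (hy : aeval y a.dd = π ^ (2 * k) * u) (hn : ∀ i, π ^ j ∣ n i)
    (hg : gr a.dd y n = π ^ (2 * j) * u') {i : Fin 3} (hi : IsUnit (aeval y (a.ee i))) :
    End a π y n := by
  refine ⟨2 * k + 1, fun F _ _ v h ρ P hρ hP h0 => ?_⟩
  set p := v (algebraMap R F π) with hp
  have h1 := step_le (n := up F n) (fun i => h.dvd (hn i)) hP
  have hj1 : p ^ j ≤ 1 := by simpa using h.ple (Nat.zero_le j)
  have hG : p ^ (2 * k + 1) < 1 := by simpa using h.plt (k := 0) (l := 2 * k + 1) (by omega)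
  have ht : max (v ρ * p ^ j) (p ^ (2 * k + 1)) < 1 :=
    max_lt ((mul_le_of_le_one_right' hj1).trans_lt hρ) hG
  have h2 := (fil_val v h.le ht.le).tay2 (y := up F y) (h := P - up F y)
    (fun i => by simpa using h.le _) (fun i => by simpa using h1 i) a.dd
  have h3 := gr_le h (k := 0) (y := y) (f := a.dd) (fun i => by simp)
    (x := P - (up F y + ρ • up F n)) hP
  have e : P - up F y = ρ • up F n + (P - (up F y + ρ • up F n)) := by abel
  rw [add_sub_cancel, h0, e, gr_add_right, gr_smul, gr_up, aeval_up, hy, hg] at h2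
  have hk : p ^ (2 * k + 1) < p ^ (2 * k) := h.plt (by omega)
  have e1 : v (ρ * algebraMap R F (π ^ (2 * j) * u')) = v ρ * p ^ (2 * j) := by
    rw [map_mul, h.val hu']
  have key : v (algebraMap R F (π ^ (2 * k) * u)) = v (ρ * algebraMap R F (π ^ (2 * j) * u')) := by
    apply eq_of_add_lt
    rw [e1, h.val hu]
    have a1 : max (v ρ * p ^ j) (p ^ (2 * k + 1)) ^ 2 < max (p ^ (2 * k)) (v ρ * p ^ (2 * j)) := by
      rcases le_total (v ρ * p ^ j) (p ^ (2 * k + 1)) with c | c
      · rw [max_eq_right c, sq]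
        exact lt_max_of_lt_left ((mul_le_of_le_one_right' hG.le).trans_lt hk)
      · rw [max_eq_left c]
        have c0 : 0 < v ρ * p ^ (2 * j) := by
          have := (pow_pos h.pos _).trans_le c
          exact mul_pos (zero_lt_iff.2 (left_ne_zero_of_mul this.ne')) (pow_pos h.pos _)
        refine lt_max_of_lt_right ?_
        calc (v ρ * p ^ j) ^ 2 = v ρ * (v ρ * p ^ (2 * j)) := by
              rw [mul_pow, ← pow_mul, mul_comm j, sq, mul_assoc]
          _ < 1 * (v ρ * p ^ (2 * j)) := mul_lt_mul_of_pos_right hρ c0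
          _ = _ := one_mul _
    have a2 := v.map_add_lt (h2.trans_lt a1)
      (h3.trans_lt (lt_max_of_lt_left (by simpa using hk)))
    rw [← v.map_neg]
    convert a2 using 2
    ring
  refine good_near h ht h1 i hi (.inl ⟨algebraMap R F π ^ j / algebraMap R F π ^ k, ?_⟩)
  rw [e1, h.val hu] at key
  have := h.pos.ne'
  rw [map_mul, map_pow, map_div₀, map_pow, map_pow, div_pow, ← pow_mul, ← pow_mul, mul_comm j,
    mul_comm k, ← mul_div_assoc, ← key, div_self (pow_ne_zero _ this)]

/-- the line through the centre of a node -/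
theorem end_centre {y0 n : Fin 3 → R} {j k A : ℕ} {u : R} (hu : IsUnit u) (h2 : IsUnit (2 : R))
    (hy : aeval y0 a.dd = π ^ A * u) (hg : ∀ i, π ^ k ∣ aeval y0 (pderiv i a.dd)) (hk : A < 2 * k)
    (hH : IsUnit (he a.dd y0 n n)) (hj : 1 ≤ j) (hA : 2 * j ≤ A) {i : Fin 3}
    (hi : IsUnit (aeval y0 (a.ee i)))
    (hs : ∃ s, π ∣ aeval y0 (a.ee i) * (-2 * u * he a.dd y0 n n) - s ^ 2) :
    End a π (y0 + π ^ j • n) n := by
  refine ⟨A + 1, fun F _ _ v h ρ P hρ hP h0 => ?_⟩
  set p := v (algebraMap R F π) with hp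
  set s := ρ + algebraMap R F π ^ j with hsd
  have hp0 := h.pos
  have hs1 : v s < 1 := v.map_add_lt hρ (by simpa using h.plt (k := 0) hj)
  have hP' : ∀ i, v (P i - (up F y0 i + s * up F n i)) ≤ p ^ (A + 1) := fun i => by
    convert hP i using 2
    simp only [up, Pi.add_apply, Pi.smul_apply, smul_eq_mul, map_add, map_mul, map_pow, hsd]
    ring
  have h1 := step_le (n := up F n) (fun i => h.le _) hP'
  rw [mul_one] at h1
  have hG : p ^ (A + 1) < 1 := by simpa using h.plt (k := 0) (l := A + 1) (by omega)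
  have hG' : p ^ (A + 1) < p ^ A := h.plt (by omega)
  have ht : max (v s) (p ^ (A + 1)) < 1 := max_lt hs1 hG
  have h3 := (fil_val v h.le ht.le).tay3 (y := up F y0) (h := P - up F y0)
    (fun i => by simpa using h.le _) (fun i => by simpa using h1 i) a.dd
  have h4 := gr_le h hg (x := P - up F y0) h1
  set ε := P - (up F y0 + s • up F n) with hε
  have e : P - up F y0 = s • up F n + ε := by rw [hε]; abel
  have h5 := he_le h y0 a.dd (x := ε) (z := s • up F n + (P - up F y0)) hP' fun i =>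
    v.map_add_le (by simpa using mul_le_one' hs1.le (h.le (n i))) ((h1 i).trans ht.le)
  have e2 : he a.dd (up F y0) (P - up F y0) (P - up F y0) = s ^ 2 * algebraMap R F (he a.dd y0 n n)
      + he a.dd (up F y0) ε (s • up F n + (P - up F y0)) := by
    rw [e]
    simp only [he_add_left, he_add_right, he_smul_left, he_smul_right, he_up,
      he_comm a.dd (up F y0) (up F n) ε]
    ring
  rw [add_sub_cancel, h0, e2, aeval_up, hy] at h3
  have v2 : v (2 : F) = 1 := by simpa [map_ofNat] using h.unit h2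
  have e3 : v (2 * algebraMap R F (π ^ A * u)) = p ^ A := by rw [map_mul, v2, h.val hu, one_mul]
  have e4 : v (s ^ 2 * algebraMap R F (he a.dd y0 n n)) = v s ^ 2 := by simp [h.unit hH]
  have key : v (2 * algebraMap R F (π ^ A * u) + s ^ 2 * algebraMap R F (he a.dd y0 n n)) <
      max (p ^ A) (v s ^ 2) := by
    have a1 : max (v s) (p ^ (A + 1)) ^ 3 < max (p ^ A) (v s ^ 2) ∧
        p ^ k * max (v s) (p ^ (A + 1)) < max (p ^ A) (v s ^ 2) := by
      have hk1 : p ^ k ≤ 1 := by simpa using h.ple (Nat.zero_le k)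
      rcases le_total (v s) (p ^ (A + 1)) with c | c
      · rw [max_eq_right c]
        exact ⟨lt_max_of_lt_left ((pow_le_of_le_one zero_le hG.le (by omega)).trans_lt hG'),
          lt_max_of_lt_left ((mul_le_of_le_one_left' hk1).trans_lt hG')⟩
      · rw [max_eq_left c]
        have c0 : 0 < v s ^ 2 := pow_pos ((pow_pos hp0 _).trans_le c) 2
        refine ⟨lt_max_of_lt_right (by simpa [pow_succ] using mul_lt_mul_of_pos_left hs1 c0), ?_⟩
        refine lt_of_pow_lt_pow_left₀ 2 zero_le ?_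
        calc (p ^ k * v s) ^ 2 = p ^ (2 * k) * v s ^ 2 := by rw [mul_pow, ← pow_mul, mul_comm k]
          _ < p ^ A * v s ^ 2 := mul_lt_mul_of_pos_right (h.plt hk) c0
          _ ≤ _ := by rw [sq (max _ _)]; exact mul_le_mul' (le_max_left _ _) (le_max_right _ _)
    have a2 : v (2 * gr a.dd (up F y0) (P - up F y0)) < max (p ^ A) (v s ^ 2) := by
      rw [map_mul, v2, one_mul]; exact h4.trans_lt a1.2
    have a3 := v.map_add_lt (v.map_add_lt (h3.trans_lt a1.1) a2)
      (h5.trans_lt (lt_max_of_lt_left hG'))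
    rw [← v.map_neg]
    convert a3 using 2
    ring
  have key2 : p ^ A = v s ^ 2 := by
    rw [← e3, ← e4] at key ⊢
    exact eq_of_add_lt key
  have hs0 : s ≠ 0 := fun c => by
    rw [c, map_zero, zero_pow two_ne_zero] at key2
    exact pow_ne_zero _ hp0.ne' key2
  refine good_near h ht h1 i hi ?_
  obtain ⟨m, rfl | rfl⟩ := Nat.even_or_odd' A
  · right
    obtain ⟨s0, hs0'⟩ := hs
    have b1 := h.lt1 hs0'
    set w := s / algebraMap R F π ^ m * algebraMap R F (he a.dd y0 n n) with hw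
    have hw1 : v w = 1 := by
      refine (pow_eq_one_iff_left two_ne_zero).1 ?_
      rw [hw, map_mul, h.unit hH, mul_one, map_div₀, map_pow, div_pow, ← key2, ← pow_mul,
        mul_comm m, div_self (pow_ne_zero _ hp0.ne')]
    have hw0 : w ≠ 0 := fun c => by simp [c] at hw1
    have b2 : v (w ^ 2 + 2 * algebraMap R F u * algebraMap R F (he a.dd y0 n n)) < 1 := by
      have : w ^ 2 + 2 * algebraMap R F u * algebraMap R F (he a.dd y0 n n) =
          (2 * algebraMap R F (π ^ (2 * m) * u) + s ^ 2 * algebraMap R F (he a.dd y0 n n)) *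
          algebraMap R F (he a.dd y0 n n) / algebraMap R F π ^ (2 * m) := by
        have := h.ne
        rw [hw, map_mul, map_pow]; field_simp; ring
      rw [this, map_div₀, map_mul, h.unit hH, mul_one, map_pow, div_lt_one₀ (pow_pos hp0 _)]
      rwa [← key2, max_self] at key
    have two : (2 : F) ≠ 0 := fun c => by simp [c] at v2
    refine ⟨(algebraMap R F (aeval y0 (a.jj i)) + algebraMap R F s0 / w) / 2, ?_, ?_⟩
    · rw [map_div₀, v2, div_one]
      exact v.map_add_le (h.le _) (by rw [map_div₀, hw1, div_one]; exact h.le _)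
    · have b3 : v (algebraMap R F (aeval y0 (a.ee i)) * (w ^ 2 + 2 * algebraMap R F u *
          algebraMap R F (he a.dd y0 n n))) < 1 := by rwa [map_mul, h.unit hi, one_mul]
      have b4 := v.map_add_lt b1 b3
      have b5 : v (-(2 * w) ^ 2) = 1 := by simp [v2, hw1]
      rw [← div_one (v _), ← b5, ← map_div₀, b5] at b4
      convert b4 using 2
      simp only [a.aeval_ee, map_sub, map_mul, map_pow, map_neg, map_ofNat]
      field_simp
      ring
  · left
    have c1 : v s < p ^ j := lt_of_pow_lt_pow_left₀ 2 zero_le (by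
      rw [← key2, ← pow_mul]; exact h.plt (by omega))
    have c2 : v ρ = p ^ j := by
      have : ρ = -algebraMap R F π ^ j + s := by rw [hsd]; ring
      rw [this, v.map_add_eq_of_lt_left (by simpa using c1)]
      simp [hp]
    refine ⟨(algebraMap R F π ^ m / s) ^ j, ?_⟩
    rw [map_mul, c2, ← pow_mul, mul_comm j, pow_mul, map_pow, map_pow, map_div₀, map_pow, div_pow,
      ← key2, ← mul_pow, ← hp, ← pow_mul, ← mul_div_assoc, ← pow_succ', mul_comm m,
      div_self (pow_ne_zero _ hp0.ne'), one_pow]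

end Pool.Agent.P.MP_b8021b_nt.CT
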