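import Pool.Agent.P.MP_b8021b_nt.CT.Defs

/-! Linear algebra of the Hessian at a node, and common roots. -/

namespace Pool.Agent.P.MP_b8021b_nt.CT

open MvPolynomial

variable {R κ : Type} [CommRing R] [Field κ] [Algebra R κ] {f : MvPolynomial (Fin 3) R}
  {y : Fin 3 → κ}

theorem he_single (i j : Fin 3) :
    he f y (Pi.single i 1) (Pi.single j 1) = aeval y (pderiv i (pderiv j f)) := by
  simp [he, Pi.single_apply]

theorem gr_single (i : Fin 3) : gr f y (Pi.single i 1) = aeval y (pderiv i f) := by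
  simp [gr, Pi.single_apply]

theorem hess_ab (h2 : (2 : κ) ≠ 0) {i j i' j' : Fin 3}
    (hm : aeval y (pderiv i (pderiv j f)) * aeval y (pderiv i' (pderiv j' f)) ≠
      aeval y (pderiv i (pderiv j' f)) * aeval y (pderiv i' (pderiv j f))) :
    (∃ x, he f y x x ≠ 0) ∧ ∀ x, he f y x x ≠ 0 →
      ∃ z, he f y x z ^ 2 - he f y x x * he f y z z ≠ 0 := by
  simp only [← he_single] at hm
  refine ⟨?_, fun x hx => ?_⟩
  · by_contra! h
    have e : ∀ x z, he f y x z = 0 := fun x z => mul_left_cancel₀ h2 (by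
      have := h (x + z)
      rw [he_add_left, he_add_right, he_add_right, h x, h z, he_comm f y z] at this
      linear_combination this)
    exact hm (by simp [e])
  · by_contra! h
    have e : ∀ z w, he f y x x * he f y z w = he f y x z * he f y x w := fun z w =>
      mul_left_cancel₀ h2 (by
        have := h (z + w)
        simp only [he_add_left, he_add_right, he_comm f y w z] at this
        linear_combination h z + h w - this)
    refine hm (mul_left_cancel₀ (mul_ne_zero hx hx) ?_)
    rw [mul_mul_mul_comm, e, e, mul_mul_mul_comm (he f y x x), e, e]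
    ring

theorem hess_c {x z : Fin 3 → κ} (hy : y ≠ 0) (h0 : ∀ w, he f y y w = 0)
    (hd : he f y x z ^ 2 - he f y x x * he f y z z ≠ 0) (l : Fin 3 → κ) (hl : l ⬝ᵥ y = 0) :
    ∃ ξ, ∀ i, l i + gr (pderiv i f) y ξ = 0 := by
  have det : (Matrix.of ![y, x, z]).det ≠ 0 := fun c => by
    obtain ⟨v, hv, e⟩ := Matrix.exists_vecMul_eq_zero_iff.2 c
    have e1 : v 0 • y + v 1 • x + v 2 • z = 0 := by
      rw [← e]; ext i; simp [Matrix.vecMul, dotProduct, Fin.sum_univ_three]
    have e2 : ∀ w, v 1 * he f y x w + v 2 * he f y z w = 0 := fun w => by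
      have := congrArg (he f y · w) e1
      simp only [he_add_left, he_smul_left, h0] at this
      rw [show he f y 0 w = 0 by simp [he]] at this
      linear_combination this
    have a1 := e2 x
    have a2 := e2 z
    rw [he_comm f y z x] at a1
    have b1 : v 1 = 0 := mul_left_cancel₀ hd (by
      linear_combination he f y x z * a2 - he f y z z * a1)
    have b2 : v 2 = 0 := mul_left_cancel₀ hd (by
      linear_combination he f y x z * a1 - he f y x x * a2)
    have b0 : v 0 = 0 := by simpa [b1, b2, hy] using e1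
    exact hv (funext fun i => by fin_cases i <;> simp [b0, b1, b2])
  set D := he f y x z ^ 2 - he f y x x * he f y z z with hD
  let ξ := ((l ⬝ᵥ x * he f y z z - l ⬝ᵥ z * he f y x z) / D) • x +
    ((l ⬝ᵥ z * he f y x x - l ⬝ᵥ x * he f y x z) / D) • z
  have e : ∀ k : Fin 3 → κ, k ⬝ᵥ (fun i => l i + gr (pderiv i f) y ξ) = l ⬝ᵥ k + he f y ξ k :=
    fun k => by
      simp only [dotProduct, he_eq, ← Finset.sum_add_distrib]
      exact Finset.sum_congr rfl fun i _ => by ring
  refine ⟨ξ, congrFun (Matrix.eq_zero_of_mulVec_eq_zero det (funext fun i => ?_))⟩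
  fin_cases i
  · change y ⬝ᵥ _ = 0
    rw [e, he_comm, h0, hl, add_zero]
  · change x ⬝ᵥ _ = 0
    simp only [e, ξ, he_add_left, he_smul_left, he_comm f y z x]
    field_simp
    rw [hD]; ring
  · change z ⬝ᵥ _ = 0
    simp only [e, ξ, he_add_left, he_smul_left]
    field_simp
    rw [hD]; ring

theorem exists_orth (y ξ : Fin 3 → κ) : ∃ l : Fin 3 → κ, l ≠ 0 ∧ y ⬝ᵥ l = 0 ∧ ξ ⬝ᵥ l = 0 := by
  obtain ⟨l, h, e⟩ := Matrix.exists_mulVec_eq_zero_iff.2
    (Matrix.det_eq_zero_of_row_eq_zero (A := Matrix.of ![y, ξ, 0]) 2 (by simp))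
  exact ⟨l, h, congrFun e 0, congrFun e 1⟩

/-- polynomials without common root in an algebraically closed field have none anywhere -/
theorem common_root {K K' ι : Type} [Field K] [IsAlgClosed K] [Algebra κ K] [Field K']
    [Algebra κ K'] (p : ι → Polynomial κ) (h : ∀ τ : K, ∃ o, Polynomial.aeval τ (p o) ≠ 0)
    (τ : K') : ∃ o, Polynomial.aeval τ (p o) ≠ 0 := by
  obtain ⟨g, hg⟩ := (IsPrincipalIdealRing.principal (Ideal.span (Set.range p))).principal
  replace hg : Ideal.span (Set.range p) = Ideal.span {g} := hg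
  have h1 : g.degree = 0 := by
    by_contra c
    obtain ⟨x, hx⟩ := IsAlgClosed.exists_aeval_eq_zero K g c
    obtain ⟨o, ho⟩ := h x
    have : p o ∈ Ideal.span {g} := hg ▸ Ideal.subset_span ⟨o, rfl⟩
    obtain ⟨q, e⟩ := Ideal.mem_span_singleton.1 this
    exact ho (by rw [e, map_mul, hx, zero_mul])
  by_contra! c
  have h2 : Ideal.span (Set.range p) ≤ RingHom.ker (Polynomial.aeval τ).toRingHom :=
    Ideal.span_le.2 (by rintro _ ⟨o, rfl⟩; exact c o)
  have h3 : Polynomial.aeval τ g = 0 := h2 (hg ▸ Ideal.subset_span rfl)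
  exact ((Polynomial.isUnit_iff_degree_eq_zero.2 h1).map (Polynomial.aeval τ)).ne_zero h3

end Pool.Agent.P.MP_b8021b_nt.CT
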