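import Pool.Agent.P.MP_b8021b_nt.CT.Chain
import Pool.Agent.P.MP_b8021b_nt.CT.Hess

/-! Generic choices of points with coordinates in the local ring. -/

namespace Pool.Agent.P.MP_b8021b_nt.CT

open CH MvPolynomial

variable {R κ K : Type} [CommRing R] [Field κ] [Algebra R κ] [Field K] [Algebra κ K]

/-- the point does not reduce to a double line -/
def NX (a : Fm R) (y : Fin 3 → R) : Prop :=
  IsUnit (aeval y a.dd) ∨ ∃ i, IsUnit (aeval y (a.ee i))

theorem Simple.nx {a : Fm R} {π : R} {y : Fin 3 → R} (hy : Simple a π y) : NX a y :=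
  hy.imp_right fun ⟨i, c, _⟩ => ⟨i, c⟩

/-- a generic property of lifts -/
def GR (κ K : Type) [Field κ] [Algebra R κ] [Field K] [Algebra κ K] (d : ℕ)
    (P : (Fin 3 → R) → Prop) : Prop :=
  Gen K d fun x : Fin 3 → κ => ∀ c, up κ c = x → P c

theorem GR.mono {d e : ℕ} {P Q : (Fin 3 → R) → Prop} (h : GR κ K d P) (hd : d ≤ e)
    (hP : ∀ x, P x → Q x) : GR κ K e Q :=
  Gen.mono h hd fun _ hx c hc => hP c (hx c hc)

theorem GR.and {d e : ℕ} {P Q : (Fin 3 → R) → Prop} (h : GR κ K d P) (h' : GR κ K e Q) :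
    GR κ K (d + e) fun x => P x ∧ Q x :=
  (Gen.and h h').mono le_rfl fun _ hx c hc => ⟨hx.1 c hc, hx.2 c hc⟩

theorem GR.shift {d : ℕ} {P : (Fin 3 → R) → Prop} (h : GR κ K d P) (y : Fin 3 → R) :
    GR κ K d fun x => P (x + y) :=
  (Gen.shift h (up κ y)).mono le_rfl fun _ hx c hc => hx _ (by rw [← hc]; ext i; simp [up])

theorem GR.triv {P : (Fin 3 → R) → Prop} (h : ∀ x, P x) : GR κ K 0 P :=
  ⟨1, one_ne_zero, by simp, fun _ _ c _ => h c⟩

theorem gen_lin {l : Fin 3 → K} (hl : l ≠ 0) :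
    Gen K 1 fun x : Fin 3 → κ => (fun i => algebraMap κ K (x i)) ⬝ᵥ l ≠ 0 := by
  refine ⟨∑ i, X i * C (l i), fun e => hl (funext fun i => ?_),
    totalDegree_finsetSum_le fun i _ => (totalDegree_mul _ _).trans (by simp),
    fun x hx => by simpa [dotProduct] using hx⟩
  simpa [Pi.single_apply] using congrArg (eval (Pi.single i 1)) e

variable [Algebra R K] [IsScalarTower R κ K]

/-- the local setting -/
structure Res (a : Fm R) (π : R) (κ K : Type) [Field κ] [Algebra R κ] [Field K] [Algebra R K]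
    (n : ℕ) : Prop where
  irr : Irreducible π
  surj : Function.Surjective (algebraMap R κ)
  zero : algebraMap R κ π = 0
  card : 4 * n + 40 ≤ Nat.card κ
  nod : Nod a K n

variable {a : Fm R} {π : R} {n : ℕ}

theorem up_up (y : Fin 3 → R) : (fun i => algebraMap κ K (up κ y i)) = up K y :=
  funext fun i => (IsScalarTower.algebraMap_apply R κ K (y i)).symm

theorem map_ne {f : MvPolynomial (Fin 3) R} {x : Fin 3 → R} (hx : IsUnit (aeval x f)) :
    map (algebraMap R κ) f ≠ 0 := fun e => (hx.map (algebraMap R κ)).ne_zero (by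
  rw [← aeval_up, ← aeval_map_algebraMap κ, e, map_zero])

namespace Res

omit [IsScalarTower R κ K] [Algebra κ K] in
theorem lift (h : Res a π κ K n) (x : Fin 3 → κ) : ∃ c : Fin 3 → R, up κ c = x :=
  ⟨fun i => (h.surj (x i)).choose, funext fun i => (h.surj (x i)).choose_spec⟩

theorem dd_ne (h : Res a π κ K n) : map (algebraMap R κ) a.dd ≠ 0 := fun e => by
  have e1 : ∀ (P : Fin 3 → K) (f : MvPolynomial (Fin 3) R),
      aeval P f = aeval P (map (algebraMap R κ) f) := fun P f => (aeval_map_algebraMap κ P f).symm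
  obtain ⟨-, i, j, i', j', c⟩ := h.nod.1 1 one_ne_zero fun o => by
    cases o <;> simp [Fm.sg, e1, ← pderiv_map, e]
  exact c (by simp [e1, ← pderiv_map, e])

variable [Finite κ]

omit [IsScalarTower R κ K] in
theorem ex (h : Res a π κ K n) {d : ℕ} {P : (Fin 3 → R) → Prop} (hP : GR κ K d P)
    (hd : d < 4 * n + 40) : ∃ c, P c := by
  obtain ⟨x, hx⟩ := Gen.ex hP (hd.trans_le h.card)
  obtain ⟨c, hc⟩ := h.lift x
  exact ⟨c, hx c hc⟩

omit [IsScalarTower R κ K] in
theorem line (h : Res a π κ K n) {d e : ℕ} {P Q : (Fin 3 → R) → Prop} (hP : GR κ K d P)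
    (hQ : GR κ K e Q) (hd : d + e < 4 * n + 40) : ∃ x, Q x ∧ ∀ z : Fin 3 → R, ∃ T : Finset κ,
      T.card ≤ d ∧ ∀ t : R, algebraMap R κ t ∉ T → P (x + t • z) := by
  obtain ⟨x, hx, hz⟩ := Gen.line hP hQ (hd.trans_le h.card)
  obtain ⟨c, hc⟩ := h.lift x
  refine ⟨c, hx c hc, fun z => ?_⟩
  obtain ⟨T, h1, h2⟩ := hz (up κ z)
  exact ⟨T, h1, fun t ht => h2 _ ht _ (by rw [← hc]; ext i; simp [up, Algebra.smul_def])⟩

end Res

variable [IsDomain R] [IsDiscreteValuationRing R]

namespace Res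

omit [IsScalarTower R κ K] [Algebra κ K]

theorem dvd_iff (h : Res a π κ K n) {x : R} : π ∣ x ↔ algebraMap R κ x = 0 :=
  ⟨fun ⟨y, e⟩ => by simp [e, h.zero], fun e => (unit_or h.irr x).resolve_left fun c =>
    (c.map (algebraMap R κ)).ne_zero e⟩

theorem unit_iff (h : Res a π κ K n) {x : R} : IsUnit x ↔ algebraMap R κ x ≠ 0 :=
  ⟨fun c => (c.map (algebraMap R κ)).ne_zero, fun e => (unit_or h.irr x).resolve_right fun c =>
    e (h.dvd_iff.1 c)⟩

theorem unit_congr (h : Res a π κ K n) {x y : R} (hx : IsUnit x) (e : π ∣ y - x) : IsUnit y := by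
  rw [h.dvd_iff, map_sub, sub_eq_zero] at e
  rwa [h.unit_iff, e, ← h.unit_iff]

theorem unit_near (h : Res a π κ K n) {x y : Fin 3 → R} (e : ∀ i, π ∣ y i - x i)
    {f : MvPolynomial (Fin 3) R} (hx : IsUnit (aeval x f)) : IsUnit (aeval y f) := by
  have : up κ y = up κ x := funext fun i => by
    simpa [sub_eq_zero] using h.dvd_iff.1 (e i)
  rwa [h.unit_iff, ← aeval_up, this, aeval_up, ← h.unit_iff]

theorem prim (h : Res a π κ K n) {y : Fin 3 → R} (hy : NX a y) : ∃ i, IsUnit (y i) := by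
  by_contra! c
  have e : ∀ i, π ∣ (0 : R) • y i - y i := fun i => by
    simpa using (unit_or h.irr _).resolve_left (c i)
  rcases hy with hy | ⟨i, hy⟩
  · have := h.unit_near (y := (0 : R) • y) e hy
    rw [aeval_smul a.hdd] at this
    simp at this
  · have := h.unit_near (y := (0 : R) • y) e hy
    obtain ⟨k, hk⟩ := a.hee i
    rw [aeval_smul hk] at this
    simp at this

end Res

omit [IsScalarTower R κ K] in
theorem Res.pol (h : Res a π κ K n) {f : MvPolynomial (Fin 3) R} {d : ℕ} (hd : f.totalDegree ≤ d)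
    (hf : map (algebraMap R κ) f ≠ 0) : GR κ K d fun c : Fin 3 → R => IsUnit (aeval c f) :=
  (gen_of (K := K) _ hf (le_trans (Finset.sup_mono (support_map_subset _ _)) hd)).mono le_rfl
    fun x hx c hc => h.unit_iff.2 (by
      rwa [← aeval_up, hc, ← aeval_map_algebraMap κ, aeval_eq_eval])

theorem Res.gr_dd (h : Res a π κ K n) : GR κ K 5 fun c : Fin 3 → R => IsUnit (aeval c a.dd) :=
  h.pol a.hdd.totalDegree_le h.dd_ne

theorem Res.gr_lin (h : Res a π κ K n) {l : Fin 3 → R} (hl : ∃ i, IsUnit (l i)) :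
    GR κ K 1 fun c => IsUnit (∑ i, l i * c i) := by
  obtain ⟨i, hi⟩ := hl
  refine (h.pol (f := ∑ i, C (l i) * X i) (totalDegree_finsetSum_le fun i _ =>
    (totalDegree_mul _ _).trans (by simp)) (map_ne (x := Pi.single i 1) ?_)).mono le_rfl
    fun x hx => by simpa using hx
  simpa [Pi.single_apply] using hi

theorem Res.gr_he (h : Res a π κ K n) {y x : Fin 3 → R} (hx : IsUnit (he a.dd y x x)) (A : R) :
    GR κ K 2 fun c => IsUnit (A + he a.dd y c c) := by
  let f : MvPolynomial (Fin 3) R :=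
    C A + ∑ i, ∑ j, C (aeval y (pderiv i (pderiv j a.dd))) * X i * X j
  have e : ∀ c, aeval c f = A + he a.dd y c c := fun c => by simp [f, he]
  obtain ⟨z, hz⟩ : ∃ z, IsUnit (aeval z f) := by
    rcases unit_or h.irr A with c | c
    · exact ⟨0, by rw [e]; simpa [he] using c⟩
    · exact ⟨x, h.unit_congr hx (by simpa [e] using c)⟩
  refine (h.pol (f := f) ((totalDegree_add _ _).trans (max_le (by simp)
    (totalDegree_finsetSum_le fun i _ => totalDegree_finsetSum_le fun j _ =>
      (totalDegree_mul _ _).trans ?_))) (map_ne hz)).mono le_rfl fun x hx => e x ▸ hx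
  have := totalDegree_mul (C (aeval y (pderiv i (pderiv j a.dd)))) (X i : MvPolynomial (Fin 3) R)
  simp only [totalDegree_C, totalDegree_X] at this ⊢
  omega

variable [IsAlgClosed K]

theorem Res.line_of (h : Res a π κ K n) {y x : Fin 3 → R} (hy : NX a y)
    (hx : ∀ τ : K, ∃ o, aeval (τ • up K y + up K x) (a.sg o) ≠ 0) : Line a π y x := by
  intro K' _ _ hπ s t hst h0
  by_contra! hc
  have sc : ∀ (μ : K') (P : Fin 3 → K'), μ ≠ 0 → s • up K' y + t • up K' x = μ • P →
      aeval P a.dd = 0 ∧ ∀ i, aeval P (a.ee i) = 0 := fun μ P hμ e => by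
    rw [e] at h0 hc
    refine ⟨by simpa [aeval_smul a.hdd, hμ] using h0, fun i => ?_⟩
    obtain ⟨k, hk⟩ := a.hee i
    simpa [aeval_smul hk, hμ] using hc i
  by_cases ht : t = 0
  · obtain ⟨c1, c2⟩ := sc s (up K' y) (by simpa [ht] using hst) (by simp [ht])
    simp only [aeval_up] at c1 c2
    rcases hy with c | ⟨i, c⟩
    · exact (c.map _).ne_zero c1
    · exact (c.map _).ne_zero (c2 i)
  obtain ⟨c1, c2⟩ := sc t ((s / t) • up K' y + up K' x) ht (by
    rw [smul_add, smul_smul, mul_div_cancel₀ _ ht])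
  have hk : RingHom.ker (algebraMap R κ) ≤ RingHom.ker (algebraMap R K') := fun z hz => by
    obtain ⟨w, rfl⟩ := h.dvd_iff.2 hz
    simp [hπ]
  let _ : Algebra κ K' := ((algebraMap R κ).liftOfSurjective h.surj ⟨_, hk⟩).toAlgebra
  have : IsScalarTower R κ K' := .of_algebraMap_eq fun z =>
    (RingHom.liftOfSurjective_comp_apply _ h.surj ⟨_, hk⟩ z).symm
  have ev : ∀ (L : Type) [Field L] [Algebra κ L] [Algebra R L] [IsScalarTower R κ L] (τ : L)
      (f : MvPolynomial (Fin 3) R), Polynomial.aeval τ (aeval (fun i => Polynomial.C (up κ y i) *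
        Polynomial.X + Polynomial.C (up κ x i)) f) = aeval (τ • up L y + up L x) f :=
    fun L _ _ _ _ τ f => by
      refine (comp_aeval_apply _ ((Polynomial.aeval τ).restrictScalars R) f).trans ?_
      congr 2
      ext i
      simp only [AlgHom.restrictScalars_apply, map_add, map_mul, Polynomial.aeval_C,
        Polynomial.aeval_X, up, ← IsScalarTower.algebraMap_apply R κ L, Pi.add_apply, Pi.smul_apply,
        smul_eq_mul, mul_comm]
  obtain ⟨o, ho⟩ := common_root _ (fun τ => (hx τ).imp fun o e => by rwa [ev]) (s / t)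
  rw [ev] at ho
  cases o
  · exact ho c1
  · exact ho (a.sing_of_xi _ c1 c2 _)

theorem Res.gr_line (h : Res a π κ K n) {y : Fin 3 → R} (hy : NX a y) :
    GR κ K (n + 1) (Line a π y) := by
  classical
  obtain ⟨T, h1, h2⟩ := h.nod.2
  choose l l0 l1 l2 using exists_orth (up K y)
  refine (Gen.all (insert 0 T) fun ξ _ => gen_lin (κ := κ) (l0 ξ)).mono
    (by simpa using (Finset.card_insert_le _ _).trans (Nat.succ_le_succ h1)) ?_
  rintro _ hx x rfl
  refine h.line_of hy fun τ => ?_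
  by_contra! c
  obtain ⟨ξ, e1, μ, e2⟩ : ∃ ξ ∈ insert 0 T, ∃ μ : K, τ • up K y + up K x = μ • ξ := by
    by_cases z : τ • up K y + up K x = 0
    · exact ⟨0, by simp, 0, by simp [z]⟩
    · obtain ⟨ξ, e1, e2⟩ := h2 _ z c
      exact ⟨ξ, Finset.mem_insert_of_mem e1, e2⟩
  have := congrArg (· ⬝ᵥ l ξ) e2
  simp only [add_dotProduct, smul_dotProduct, l1, l2, smul_zero, zero_add] at this
  exact hx ξ e1 (by rw [up_up, this])

theorem Res.gr_tooth (h : Res a π κ K n) {y : Fin 3 → R} (hy : Simple a π y) :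
    GR κ K (n + 7) fun c => IsUnit (aeval c a.dd) ∧ Tooth a π False y c := by
  have h1 : GR κ K 1 (End a π y) := by
    rcases hy with c | ⟨i, c, ⟨r, e⟩ | ⟨e, k, u, hu, e'⟩⟩
    · exact (GR.triv fun x => end_none (j := 0) c (by simp) (by simp) (by simp)).mono
        (by simp) fun _ => id
    · exact (GR.triv fun x => end_split x c e).mono (by simp) fun _ => id
    · exact (h.gr_lin e).mono le_rfl fun x hx =>
        end_trans (j := 0) hu hx e' (by simp) (by simp [gr]) c
  refine ((((h.gr_line hy.nx).and h1).shift (-y)).and h.gr_dd).mono le_rfl fun c hc => ⟨hc.2, ?_⟩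
  have := tooth_of (j := 0) hc.1.1 (by simpa using hc.1.2)
    (end_none (j := 0) hc.2 (by simp) (by simp) (by simp))
  simpa using this

theorem Res.join (h : Res a π κ K n) [Finite κ] {y y' : Fin 3 → R} (hy : Simple a π y)
    (hy' : Simple a π y') (m : ℕ) : Chain a π (m + 2) y y' := by
  induction m generalizing y with
  | zero =>
    obtain ⟨c, h1, h2⟩ := h.ex ((h.gr_tooth hy).and (h.gr_tooth hy')) (by omega)
    exact (Chain.one h1.2).trans (Chain.one h2.2.symm)
  | succ m ih =>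
    obtain ⟨c, h1, h2⟩ := h.ex (h.gr_tooth hy) (by omega)
    rw [show m + 1 + 2 = 1 + (m + 2) by omega]
    exact (Chain.one h2).trans (ih (.inl h1))

end Pool.Agent.P.MP_b8021b_nt.CT
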