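import Pool.Agent.P.MP_b8021b_nt.CT.Gens

/-! The local statements that the global construction uses. -/

namespace Pool.Agent.P.MP_b8021b_nt.CT

open CH MvPolynomial
open scoped WithZero

/-- an admissible end point of scale `k` -/
def Pt {R : Type} [CommRing R] (a : Fm R) (π : R) (k : ℕ) (y : Fin 3 → R) : Prop :=
  aeval y a.dd ≠ 0 ∧ Iso a y ∧ ∃ y0, y = π ^ k • y0 ∧ NX a y0

/-- one place of the finite set -/
def S_In : Prop :=
  ∀ (R κ K : Type) [CommRing R] [IsDomain R] [IsDiscreteValuationRing R] [Field κ] [Finite κ]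
    [Algebra R κ] [Field K] [IsAlgClosed K] [Algebra κ K] [Algebra R K] [IsScalarTower R κ K]
    (π : R) (a : Fm R) (n : ℕ), Res a π κ K n →
    (∀ A : Fin 3 → R, ∃ o, A ⬝ᵥ o = 0 ∧ NX a o) ∧
    ∀ (N : R) (k l : ℕ) (b o : Fin 3 → R), N ≠ 0 → Cert N a.sg → Pt a π k b → Pt a π l o →
      Even (k + l) → ∃ m0 : ℕ, ∀ m, m0 ≤ m → ∃ M0 : ℕ, ∀ μ : R, μ ≠ 0 → π ^ M0 ∣ μ →
      ∃ (γ : ℕ → Fin 3 → R) (N' : ℕ), ∀ β : ℕ → Fin 3 → R, β 0 = b → β m = μ ^ 2 • o →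
        (∀ i, 0 < i → i < m → ∀ j, π ^ N' ∣ β i j - γ i j) →
        ∀ (F : Type) [Field F] [Algebra R F] (v : Valuation F ℤᵐ⁰), Ext π F v → ∀ θ : F,
          aeval (∑ i ∈ Finset.range (m + 1), θ ^ i • up F (β i)) a.dd = 0 →
          Good a v θ (∑ i ∈ Finset.range (m + 1), θ ^ i • up F (β i))

/-- the other places -/
def S_Out : Prop :=
  ∀ (R F : Type) [CommRing R] [Field F] [Algebra R F] (v : Valuation F ℤᵐ⁰) (a : Fm R) (N : R)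
    (m : ℕ) (β : ℕ → Fin 3 → R) (θ : F), (∀ x, v (algebraMap R F x) ≤ 1) → Cert N a.sg →
    v (algebraMap R F N) = 1 → v (algebraMap R F (aeval (β 0) a.dd)) = 1 →
    v (algebraMap R F (aeval (β m) a.dd)) = 1 →
    ∑ i ∈ Finset.range (m + 1), θ ^ i • up F (β i) ≠ 0 →
    aeval (∑ i ∈ Finset.range (m + 1), θ ^ i • up F (β i)) a.dd = 0 →
    Good a v θ (∑ i ∈ Finset.range (m + 1), θ ^ i • up F (β i))

/-- the line `l1 = 0` of the plane -/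
def S_Lam : Prop :=
  ∀ (O Ω : Type) [CommRing O] [IsDomain O] [CharZero O] [Field Ω] [IsAlgClosed Ω] [Algebra O Ω]
    (a : Fm O), Function.Injective (algebraMap O Ω) → a.l1 ≠ 0 →
    (∀ P : Fin 3 → Ω, (∀ o, aeval P (a.sg o) = 0) → P = 0) →
    ∃ (A u u' : Fin 3 → O) (α : O) (j j' : Fin 3), α ≠ 0 ∧ A ⬝ᵥ u = 0 ∧ A ⬝ᵥ u' = 0 ∧
      u j = α ∧ u j' = 0 ∧ u' j = 0 ∧ u' j' = α ∧
      (∀ (S : Type) [CommRing S] [Algebra O S] (x : Fin 3 → S), aeval x a.l1 = up S A ⬝ᵥ x ∧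
        (up S A ⬝ᵥ x = 0 → algebraMap O S α • x = x j • up S u + x j' • up S u')) ∧
      ∀ s t c : O, s ≠ 0 → c ≠ 0 → ∃ z : O, aeval (s • u + (t + c * z) • u') a.dd ≠ 0

end Pool.Agent.P.MP_b8021b_nt.CT
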