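import Pool.Agent.P.MP_b8021b_nt.CT.Ends

/-! Good lines. -/

namespace Pool.Agent.P.MP_b8021b_nt.CT

open CH MvPolynomial
open scoped WithZero

variable {R : Type} [CommRing R] {a : Fm R} {π : R}

theorem line_val {F : Type} [Field F] [Algebra R F] {v : Valuation F ℤᵐ⁰} (h : Ext π F v)
    {y n : Fin 3 → R} (hL : Line a π y n) {s t : F} (hs : v s ≤ 1) (ht : v t ≤ 1)
    (hst : v s = 1 ∨ v t = 1) {P : Fin 3 → F}
    (hP : ∀ i, v (P i - (s * up F y i + t * up F n i)) < 1) (h0 : aeval P a.dd = 0) {θ : F}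
    (hθ : v θ = 1) : Good a v θ P := by
  have hP1 : ∀ i, v (P i) ≤ 1 := fun i => by
    have := v.map_add_le (hP i).le (v.map_add_le (x := s * up F y i) (y := t * up F n i)
      (by rw [map_mul]; exact mul_le_one' hs (h.le _))
      (by rw [map_mul]; exact mul_le_one' ht (h.le _)))
    simpa using this
  let O := v.valuationSubring
  let _ : Algebra R O := ((algebraMap R F).codRestrict O.toSubring h.le).toAlgebra
  let K := IsLocalRing.ResidueField O
  let ψ : O →ₐ[R] K := IsScalarTower.toAlgHom R O K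
  let ι : O →ₐ[R] F := { O.subtype with commutes' := fun _ => rfl }
  have hψ : ∀ x : O, ψ x = 0 ↔ v (x : F) < 1 := fun x =>
    (IsLocalRing.residue_eq_zero_iff x).trans (Valuation.mem_maximalIdeal_iff F v)
  let Q : Fin 3 → O := fun i => ⟨P i, hP1 i⟩
  have e1 : ∀ f : MvPolynomial (Fin 3) R, aeval P f = ((aeval Q f : O) : F) := fun f =>
    ((comp_aeval_apply Q ι f).symm.trans rfl :)
  have e2 : ψ ⟨s, hs⟩ • up K y + ψ ⟨t, ht⟩ • up K n = fun i => ψ (Q i) := funext fun i => by
    have := (hψ (Q i - (⟨s, hs⟩ * algebraMap R O (y i) + ⟨t, ht⟩ * algebraMap R O (n i)))).2 (hP i)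
    rw [map_sub, map_add, map_mul, map_mul, ψ.commutes, ψ.commutes, sub_eq_zero] at this
    exact this.symm
  obtain ⟨i, hi⟩ := hL K ((ψ.commutes π).symm.trans ((hψ _).2 h.lt)) (ψ ⟨s, hs⟩) (ψ ⟨t, ht⟩)
    (hst.imp (fun e c => ((hψ _).1 c).ne e) fun e c => ((hψ _).1 c).ne e) (by
      rw [e2, ← comp_aeval_apply, hψ, ← e1, h0]; simp)
  rw [e2, ← comp_aeval_apply, Ne, hψ, ← e1, not_lt] at hi
  exact good_of h hP1 i (le_antisymm (val_aeval_le h hP1 _) hi) (.inl ⟨1, by simpa using hθ⟩)

theorem tooth_of {y n : Fin 3 → R} {j : ℕ} (hL : Line a π y n) (h1 : End a π y (π ^ j • n))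
    (h2 : End a π (y + π ^ j • n) (π ^ j • n)) : Tooth a π False y (y + π ^ j • n) := by
  obtain ⟨G1, h1⟩ := h1
  obtain ⟨G2, h2⟩ := h2
  refine ⟨G1 + G2 + j + 1, fun F _ _ v h r θ P hr hP h0 hθ => ?_⟩
  obtain ⟨z, hz⟩ := hθ.resolve_left id
  set p := v (algebraMap R F π) with hp
  have sc : ∀ μ : F, μ ≠ 0 → aeval (μ⁻¹ • P) a.dd = 0 ∧ μ • μ⁻¹ • P = P := fun μ hμ =>
    ⟨by rw [aeval_smul a.hdd, h0, mul_zero], smul_inv_smul₀ hμ P⟩
  have hv0 : v r ≠ 0 := (Valuation.ne_zero_iff v).2 hr
  rcases lt_trichotomy (v r) 1 with c | c | c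
  · have e : v (1 + r) = 1 := v.map_one_add_of_lt c
    have e0 : 1 + r ≠ 0 := fun x => by simp [x] at e
    have := h1 F v h (r / (1 + r)) _ (by simpa [e] using c) (fun i => ?_) (sc _ e0).1
    · rw [← (sc _ e0).2]
      exact this.congr z _ (by simpa [e] using hz) e0
    · have b := hP i
      rw [max_eq_left c.le, mul_one, ← div_one (v _), ← e, ← map_div₀] at b
      refine le_trans (le_of_eq ?_) (b.trans (h.ple (by omega)))
      congr 1
      simp only [up, Pi.add_apply, Pi.smul_apply, smul_eq_mul, map_add]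
      field_simp
      ring
  · have hj : 0 < p ^ j := pow_pos h.pos j
    obtain ⟨μ, hμ, m1, m2, m3⟩ : ∃ μ : F, p ^ j ≤ v μ ∧ v ((1 + r) / μ) ≤ 1 ∧
        v (r * algebraMap R F π ^ j / μ) ≤ 1 ∧
        (v ((1 + r) / μ) = 1 ∨ v (r * algebraMap R F π ^ j / μ) = 1) := by
      rcases le_total (v (1 + r)) (p ^ j) with d | d
      · have e : v (r * algebraMap R F π ^ j / algebraMap R F π ^ j) = 1 := by
          rw [mul_div_assoc, div_self (pow_ne_zero _ h.ne), mul_one, c]
        exact ⟨algebraMap R F π ^ j, by simp [hp], by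
          rw [map_div₀, map_pow]; exact div_le_one_of_le₀ d zero_le, e.le, .inr e⟩
      · have e : v ((1 + r) / (1 + r)) = 1 := by rw [map_div₀, div_self (hj.trans_le d).ne']
        exact ⟨1 + r, d, e.le, by
          rw [map_div₀, map_mul, c, one_mul, map_pow]; exact div_le_one_of_le₀ d zero_le, .inl e⟩
    have hμ0 : 0 < v μ := hj.trans_le hμ
    have e0 : μ ≠ 0 := (Valuation.ne_zero_iff v).1 hμ0.ne'
    have := line_val h hL m1 m2 m3 (P := μ⁻¹ • P) (fun i => ?_) (sc _ e0).1 c
    · rw [← (sc _ e0).2]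
      exact this.congr z _ hz e0
    · have b := hP i
      rw [c, max_self, mul_one] at b
      have b2 := (div_lt_one₀ hμ0).2 ((b.trans_lt (h.plt (k := j) (by omega))).trans_le hμ)
      rw [← map_div₀] at b2
      convert b2 using 2
      simp only [up, Pi.add_apply, Pi.smul_apply, smul_eq_mul, map_add, map_mul, map_pow]
      field_simp
      ring
  · have e : v (1 + r) = v r := v.map_add_eq_of_lt_right (by simpa using c)
    have e0 : 1 + r ≠ 0 := fun x => hv0 (by rw [← e, x, map_zero])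
    have := h2 F v h (-1 / (1 + r)) _ (by simpa [e] using inv_lt_one_of_one_lt₀ c) (fun i => ?_)
      (sc _ e0).1
    · rw [← (sc _ e0).2]
      refine this.congr (z / r) _ ?_ e0
      rw [div_pow, ← mul_div_assoc, map_div₀, hz, map_div₀, e, map_pow]
      simp [sq]
    · have b := hP i
      rw [max_eq_right c.le, ← div_le_iff₀ (zero_lt_iff.2 hv0), ← e, ← map_div₀] at b
      refine le_trans (le_of_eq ?_) (b.trans (h.ple (by omega)))
      congr 1
      simp only [up, Pi.add_apply, Pi.smul_apply, smul_eq_mul, map_add]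
      field_simp
      ring

theorem Tooth.smul {s : Prop} {c c' : Fin 3 → R} (h : Tooth a π s c c') (k : ℕ) :
    Tooth a π s (π ^ k • c) (π ^ k • c') := by
  obtain ⟨G, h1⟩ := h
  refine ⟨k + G, fun F _ _ v h r θ P hr hP h0 hθ => ?_⟩
  have e0 : algebraMap R F π ^ k ≠ 0 := pow_ne_zero _ h.ne
  have := h1 F v h r θ ((algebraMap R F π ^ k)⁻¹ • P) hr (fun i => ?_)
    (by rw [aeval_smul a.hdd, h0, mul_zero]) hθ
  · rw [← smul_inv_smul₀ e0 P]
    exact this.congr 1 _ (by simp) e0
  · have b := hP i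
    rw [pow_add, mul_assoc, ← div_le_iff₀' (pow_pos h.pos k), ← map_pow, ← map_div₀] at b
    refine le_trans (le_of_eq ?_) b
    congr 1
    simp only [up, Pi.smul_apply, smul_eq_mul, map_mul, map_pow]
    field_simp

theorem Tooth.mono {s s' : Prop} {c c' : Fin 3 → R} (h : Tooth a π s c c') (hs : s' → s) :
    Tooth a π s' c c' := by
  obtain ⟨G, h⟩ := h
  exact ⟨G, fun F _ _ v e r θ P hr hP h0 hθ => h F v e r θ P hr hP h0 (hθ.imp_left hs)⟩

theorem ok_small {F : Type} [Field F] {v : Valuation F ℤᵐ⁰} (θ : F) {j c : F} (hj : j ≠ 0)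
    (h : v c < v j ^ 2) : OK v θ (j ^ 2 - 4 * c) := by
  have e : v (c / j ^ 2) < 1 := by
    rwa [map_div₀, map_pow, div_lt_one₀ (pow_pos (zero_lt_iff.2 ((Valuation.ne_zero_iff v).2 hj)) 2)]
  have e4 : v (4 : F) ≤ 1 := by
    have : (4 : F) = 1 + 1 + 1 + 1 := by norm_num
    rw [this]
    exact v.map_add_le (v.map_add_le (v.map_add_le (by simp) (by simp)) (by simp)) (by simp)
  refine ⟨j⁻¹, 1, c / j ^ 2, by simp, e.le, by field_simp, ?_, .inr ⟨0, by simp, by simpa using e⟩⟩
  rw [one_pow]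
  exact v.map_one_sub_of_lt (by rw [map_mul]; exact (mul_le_of_le_one_left' e4).trans_lt e)

/-- two independent points of the line `l1 = 0` -/
theorem tooth_lam {c c' : Fin 3 → R} (hc : aeval c a.l1 = 0) (hc' : aeval c' a.l1 = 0)
    {i0 j0 : Fin 3} {k l : ℕ} {u u' : R} (hu : IsUnit u) (hu' : IsUnit u')
    (hd : c i0 * c' j0 - c j0 * c' i0 = π ^ k * u) (hN : Cert (π ^ l * u') a.tl) :
    Tooth a π True c c' := by
  refine ⟨k + 2 * l + 1, fun F _ _ v h r θ P hr hP _ _ => ?_⟩
  set p := v (algebraMap R F π) with hp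
  set W := max 1 (v r) with hW
  have hW0 : 0 < W := lt_max_of_lt_left one_pos
  obtain ⟨m, -, hm⟩ := Finset.exists_max_image Finset.univ (fun i => v (P i)) ⟨0, by simp⟩
  have hlow : p ^ k * W ≤ v (P m) := by
    by_contra c0
    have c1 : ∀ i, v (up F c i + r * up F c' i) < p ^ k * W := fun i => by
      have := v.map_sub_lt ((hm i (by simp)).trans_lt (not_le.1 c0))
        ((hP i).trans_lt (mul_lt_mul_of_pos_right (h.plt (k := k) (by omega)) hW0))
      simpa using this
    have c2 : ∀ i (x : R), v ((up F c i + r * up F c' i) * algebraMap R F x) < p ^ k * W :=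
      fun i x => by rw [map_mul]; exact (mul_le_of_le_one_right' (h.le x)).trans_lt (c1 i)
    have d1 := v.map_sub_lt (c2 i0 (c' j0)) (c2 j0 (c' i0))
    have d2 := v.map_sub_lt (c2 j0 (c i0)) (c2 i0 (c j0))
    have hd' := congrArg (algebraMap R F) hd
    rw [map_sub, map_mul, map_mul] at hd'
    rw [show (up F c i0 + r * up F c' i0) * algebraMap R F (c' j0) -
      (up F c j0 + r * up F c' j0) * algebraMap R F (c' i0) = algebraMap R F (π ^ k * u) by
        rw [← hd']; simp only [up]; ring, h.val hu] at d1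
    rw [show (up F c j0 + r * up F c' j0) * algebraMap R F (c i0) -
      (up F c i0 + r * up F c' i0) * algebraMap R F (c j0) = algebraMap R F (π ^ k * u) * r by
        rw [← hd']; simp only [up]; ring, map_mul, h.val hu] at d2
    rcases max_choice 1 (v r) with e | e <;> rw [hW, e] at d1 d2
    · simp [hp] at d1
    · exact lt_irrefl _ d2
  have hm0 : 0 < v (P m) := (mul_pos (pow_pos h.pos k) hW0).trans_le hlow
  have e0 : P m ≠ 0 := (Valuation.ne_zero_iff v).1 hm0.ne'
  set Q := (P m)⁻¹ • P with hQ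
  have hQ1 : ∀ i, v (Q i) ≤ 1 := fun i => by
    rw [hQ, Pi.smul_apply, smul_eq_mul, map_mul, map_inv₀, inv_mul_le_iff₀ hm0, mul_one]
    exact hm i (by simp)
  have hl : v (aeval Q a.l1) ≤ p ^ (2 * l + 1) := by
    have e1 : aeval P a.l1 = aeval (P - (up F c + r • up F c')) a.l1 := by
      have := aeval_add_lin a.h1 (P - (up F c + r • up F c')) (up F c + r • up F c')
      rw [sub_add_cancel, aeval_add_lin a.h1 (up F c), aeval_smul a.h1, aeval_up, aeval_up, hc,
        hc'] at this
      simpa using this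
    obtain ⟨m', -, hm'⟩ := Finset.exists_max_image Finset.univ
      (fun i => v ((P - (up F c + r • up F c')) i)) ⟨0, by simp⟩
    have e2 : v (aeval P a.l1) ≤ p ^ (k + 2 * l + 1) * W := by
      rw [e1]
      set ε := P - (up F c + r • up F c')
      by_cases z : ε m' = 0
      · have : ε = (0 : F) • ε := funext fun i => by simpa [z] using hm' i (by simp)
        rw [this, aeval_smul a.h1]; simp
      · rw [← smul_inv_smul₀ z ε, aeval_smul a.h1, pow_one, map_mul]
        refine (mul_le_of_le_one_right' (val_aeval_le h (fun i => ?_) _)).trans (hP m')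
        rw [Pi.smul_apply, smul_eq_mul, map_mul, map_inv₀,
          inv_mul_le_iff₀ (zero_lt_iff.2 ((Valuation.ne_zero_iff v).2 z)), mul_one]
        exact hm' i (by simp)
    rw [hQ, aeval_smul a.h1, pow_one, map_mul, map_inv₀, inv_mul_le_iff₀ hm0]
    refine e2.trans (le_trans (le_of_eq ?_) (mul_le_mul' hlow le_rfl))
    rw [add_assoc, pow_add, mul_right_comm]
  have key : ∀ i : Fin 3, ∀ g, a.cc i = a.l1 * g → p ^ l ≤ v (aeval Q (a.jj i)) → Good a v θ P :=
    fun i g hg e => by
      have e1 := (pow_pos h.pos l).trans_le e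
      have : Good a v θ Q := ⟨i, by
        rw [a.aeval_ee]
        refine ok_small θ ((Valuation.ne_zero_iff v).1 e1.ne') ?_
        rw [hg, map_mul, map_mul]
        refine ((mul_le_of_le_one_right' (val_aeval_le h hQ1 g)).trans hl).trans_lt
          ((h.plt (k := l * 2) (by omega)).trans_le ?_)
        rw [pow_mul]
        exact pow_le_pow_left₀ zero_le e 2⟩
      rw [← smul_inv_smul₀ e0 P]
      exact this.congr 1 _ (by simp) e0
  by_contra hn
  have n0 := not_le.1 fun e => hn (key 0 a.l3 rfl e)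
  have n1 := not_le.1 fun e => hn (key 1 a.c rfl e)
  have := hN.val v h.le Q hQ1 ⟨m, by simp [hQ, hm0.ne']⟩
    (t := max (v (aeval Q a.l1)) (max (v (aeval Q a.l2)) (v (aeval Q a.q1)))) fun j => by
      fin_cases j <;> simp [Fm.tl]
  rw [h.val hu'] at this
  exact (max_lt (hl.trans_lt (h.plt (by omega))) (max_lt n0 n1)).not_ge this

end Pool.Agent.P.MP_b8021b_nt.CT
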