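import Mathlib

/-! Taylor expansion of a polynomial up to order three, for any multiplicative filtration. -/

namespace Pool.Agent.P.MP_b8021b_nt.CT

open MvPolynomial

/-- a multiplicative filtration of an algebra -/
structure Fil (R : Type) {S : Type} [CommRing R] [CommRing S] [Algebra R S] (P : ℕ → S → Prop) :
    Prop where
  add : ∀ {n x y}, P n x → P n y → P n (x + y)
  mul : ∀ {m n x y}, P m x → P n y → P (m + n) (x * y)
  alg : ∀ r : R, P 0 (algebraMap R S r)
  zero : ∀ n, P n 0
  mono : ∀ {n x}, P (n + 1) x → P n x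

variable {R S σ : Type} [CommRing R] [CommRing S] [Algebra R S] {P : ℕ → S → Prop}

theorem Fil.sum (h : Fil R P) {ι : Type} (s : Finset ι) {n : ℕ} {f : ι → S}
    (hf : ∀ i ∈ s, P n (f i)) : P n (∑ i ∈ s, f i) :=
  Finset.sum_induction f (P n) (fun _ _ => h.add) (h.zero n) hf

theorem Fil.aev (h : Fil R P) {y : σ → S} (hy : ∀ i, P 0 (y i)) (f : MvPolynomial σ R) :
    P 0 (aeval y f) := by
  induction f using MvPolynomial.induction_on with
  | C a => simpa using h.alg a
  | add p q hp hq => simpa using h.add hp hq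
  | mul_X p i hp => simpa using h.mul hp (hy i)

variable [Fintype σ]

/-- the gradient applied to a vector -/
noncomputable def gr (f : MvPolynomial σ R) (y h : σ → S) : S :=
  ∑ i, aeval y (pderiv i f) * h i

/-- the Hessian applied to two vectors -/
noncomputable def he (f : MvPolynomial σ R) (y h k : σ → S) : S :=
  ∑ i, ∑ j, aeval y (pderiv i (pderiv j f)) * h i * k j

theorem gr_mul_X (f : MvPolynomial σ R) (y h : σ → S) (i : σ) :
    gr (f * X i) y h = gr f y h * y i + aeval y f * h i := by
  classical
  simp only [gr, Derivation.leibniz, smul_eq_mul, map_add, map_mul, aeval_X, pderiv_X, add_mul,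
    Finset.sum_add_distrib, Finset.sum_mul]
  rw [add_comm]
  congr 1
  · exact Finset.sum_congr rfl fun j _ => by ring
  · rw [Finset.sum_eq_single i (fun j _ hj => by simp [hj.symm]) (by simp)]
    simp

theorem he_eq (f : MvPolynomial σ R) (y h k : σ → S) :
    he f y h k = ∑ j, gr (pderiv j f) y h * k j := by
  simp only [he, gr, Finset.sum_mul]
  exact Finset.sum_comm

theorem gr_add (f g : MvPolynomial σ R) (y h : σ → S) : gr (f + g) y h = gr f y h + gr g y h := by
  simp [gr, add_mul, Finset.sum_add_distrib]

theorem he_add (f g : MvPolynomial σ R) (y h k : σ → S) :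
    he (f + g) y h k = he f y h k + he g y h k := by
  simp [he, add_mul, Finset.sum_add_distrib]

theorem he_mul_X (f : MvPolynomial σ R) (y h k : σ → S) (i : σ) :
    he (f * X i) y h k = he f y h k * y i + gr f y k * h i + gr f y h * k i := by
  classical
  have e : ∀ j, pderiv j (f * X i) = pderiv j f * X i + if j = i then f else 0 := fun j => by
    rw [Derivation.leibniz, pderiv_X, smul_eq_mul, smul_eq_mul, add_comm, mul_comm (X i)]
    congr 1
    by_cases hj : j = i
    · simp [hj]
    · simp [hj, Ne.symm hj]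
  simp only [he_eq, e, gr_add, gr_mul_X, add_mul, Finset.sum_add_distrib, Finset.sum_mul]
  congr 1
  · congr 1
    · exact Finset.sum_congr rfl fun j _ => by ring
    · simp only [gr, Finset.sum_mul]
      exact Finset.sum_congr rfl fun j _ => by ring
  · rw [Finset.sum_eq_single i (fun j _ hj => by simp [hj, gr]) (by simp)]
    simp

theorem Fil.gr (hP : Fil R P) {y h : σ → S} (hy : ∀ i, P 0 (y i)) (hh : ∀ i, P 1 (h i))
    (f : MvPolynomial σ R) : P 1 (gr f y h) :=
  hP.sum _ fun i _ => hP.mul (hP.aev hy _) (hh i)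

theorem Fil.he (hP : Fil R P) {y h : σ → S} (hy : ∀ i, P 0 (y i)) (hh : ∀ i, P 1 (h i))
    (f : MvPolynomial σ R) : P 2 (he f y h h) :=
  hP.sum _ fun i _ => hP.sum _ fun j _ => hP.mul (hP.mul (hP.aev hy _) (hh i)) (hh j)

theorem Fil.tay2 (hP : Fil R P) {y h : σ → S} (hy : ∀ i, P 0 (y i)) (hh : ∀ i, P 1 (h i))
    (f : MvPolynomial σ R) : P 2 (aeval (y + h) f - aeval y f - CT.gr f y h) := by
  induction f using MvPolynomial.induction_on with
  | C a => simpa [CT.gr] using hP.zero 2
  | add p q hp hq => convert hP.add hp hq using 1; simp only [map_add, gr_add]; ring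
  | mul_X p i hp =>
    have h2 : P 2 _ := hP.mul (m := 1) (n := 1) (hP.gr hy hh p) (hh i)
    convert hP.add (hP.mul hp (hP.add (hy i) (hP.mono (hh i)))) h2 using 1
    simp only [map_mul, aeval_X, gr_mul_X, Pi.add_apply]; ring

theorem Fil.tay1 (hP : Fil R P) {y h : σ → S} (hy : ∀ i, P 0 (y i)) (hh : ∀ i, P 1 (h i))
    (f : MvPolynomial σ R) : P 1 (aeval (y + h) f - aeval y f) := by
  convert hP.add (hP.mono (hP.tay2 hy hh f)) (hP.gr hy hh f) using 1; ring

theorem Fil.tay3 (hP : Fil R P) {y h : σ → S} (hy : ∀ i, P 0 (y i)) (hh : ∀ i, P 1 (h i))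
    (f : MvPolynomial σ R) :
    P 3 (2 * (aeval (y + h) f - aeval y f - CT.gr f y h) - CT.he f y h h) := by
  induction f using MvPolynomial.induction_on with
  | C a => simpa [CT.gr, CT.he] using hP.zero 3
  | add p q hp hq => convert hP.add hp hq using 1; simp only [map_add, gr_add, he_add]; ring
  | mul_X p i hp =>
    have h2 : P 3 _ := hP.mul (m := 2) (n := 1) (hP.he hy hh p) (hh i)
    convert hP.add (hP.mul hp (hP.add (hy i) (hP.mono (hh i)))) h2 using 1
    simp only [map_mul, aeval_X, gr_mul_X, he_mul_X, Pi.add_apply]; ring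

/-- divisibility by the powers of one element -/
theorem fil_dvd (t : S) : Fil R fun n (x : S) => t ^ n ∣ x where
  add := dvd_add
  mul := fun a b => by rw [pow_add]; exact mul_dvd_mul a b
  alg := fun _ => by simp
  zero := fun _ => dvd_zero _
  mono := fun a => (pow_dvd_pow t (Nat.le_succ _)).trans a

/-- size at most a power of a given value -/
theorem fil_val {Γ : Type} [LinearOrderedCommGroupWithZero Γ] (v : Valuation S Γ)
    (hv : ∀ r : R, v (algebraMap R S r) ≤ 1) {t : Γ} (ht : t ≤ 1) :
    Fil R fun n (x : S) => v x ≤ t ^ n where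
  add := fun a b => v.map_add_le a b
  mul := fun a b => by rw [pow_add, map_mul]; exact mul_le_mul' a b
  alg := fun r => by simpa using hv r
  zero := fun _ => by simp
  mono := fun a => a.trans (pow_le_pow_of_le_one zero_le ht (Nat.le_succ _))

theorem he_comm (f : MvPolynomial σ R) (y h k : σ → S) : he f y h k = he f y k h := by
  induction f using MvPolynomial.induction_on with
  | C a => simp [he]
  | add p q hp hq => rw [he_add, he_add, hp, hq]
  | mul_X p i hp => rw [he_mul_X, he_mul_X, hp]; ring

theorem gr_add_right (f : MvPolynomial σ R) (y h k : σ → S) :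
    gr f y (h + k) = gr f y h + gr f y k := by
  simp [gr, mul_add, Finset.sum_add_distrib]

theorem gr_smul (f : MvPolynomial σ R) (y h : σ → S) (c : S) : gr f y (c • h) = c * gr f y h := by
  simp only [gr, Finset.mul_sum, Pi.smul_apply, smul_eq_mul]
  exact Finset.sum_congr rfl fun j _ => by ring

theorem he_add_left (f : MvPolynomial σ R) (y h h' k : σ → S) :
    he f y (h + h') k = he f y h k + he f y h' k := by
  simp [he_eq, gr_add_right, add_mul, Finset.sum_add_distrib]

theorem he_smul_left (f : MvPolynomial σ R) (y h k : σ → S) (c : S) :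
    he f y (c • h) k = c * he f y h k := by
  simp [he_eq, gr_smul, Finset.mul_sum, mul_assoc]

theorem he_add_right (f : MvPolynomial σ R) (y h k k' : σ → S) :
    he f y h (k + k') = he f y h k + he f y h k' := by
  rw [he_comm, he_add_left, he_comm f y k, he_comm f y k']

theorem he_smul_right (f : MvPolynomial σ R) (y h k : σ → S) (c : S) :
    he f y h (c • k) = c * he f y h k := by
  rw [he_comm, he_smul_left, he_comm]

/-- scaling of a homogeneous polynomial -/
theorem aeval_smul {f : MvPolynomial σ R} {n : ℕ} (hf : f.IsHomogeneous n) (c : S) (y : σ → S) :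
    aeval (c • y) f = c ^ n * aeval y f := by
  rw [aeval_def, aeval_def, eval₂_eq', eval₂_eq', Finset.mul_sum]
  refine Finset.sum_congr rfl fun d hd => ?_
  have e : ∑ i, d i = n := by
    rw [← hf (mem_support_iff.1 hd), Finsupp.weight_apply, Finsupp.sum_fintype _ _ (by simp)]
    simp
  simp only [Pi.smul_apply, smul_eq_mul, mul_pow, Finset.prod_mul_distrib,
    Finset.prod_pow_eq_pow_sum, e]
  ring

/-- the identity of Euler -/
theorem gr_self {f : MvPolynomial σ R} {n : ℕ} (hf : f.IsHomogeneous n) (y : σ → S) :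
    gr f y y = n * aeval y f := by
  have e := congrArg (aeval y) hf.sum_X_mul_pderiv
  simp only [map_sum, map_mul, aeval_X, nsmul_eq_mul, map_natCast] at e
  rw [← e]
  exact Finset.sum_congr rfl fun j _ => mul_comm _ _

theorem he_self {f : MvPolynomial σ R} {n : ℕ} (hf : f.IsHomogeneous (n + 1)) (y k : σ → S) :
    he f y y k = n * gr f y k := by
  rw [he_eq, gr, Finset.mul_sum]
  refine Finset.sum_congr rfl fun j _ => ?_
  rw [gr_self (n := n) (by simpa using hf.pderiv (i := j)), mul_assoc]

/-- a linear form is additive -/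
theorem aeval_add_lin {f : MvPolynomial σ R} (hf : f.IsHomogeneous 1) (x y : σ → S) :
    aeval (x + y) f = aeval x f + aeval y f := by
  have e : ∀ z : σ → S, aeval z f = gr f 0 z := fun z => by
    have h1 := gr_self hf z
    rw [Nat.cast_one, one_mul] at h1
    rw [← h1]
    refine Finset.sum_congr rfl fun j _ => ?_
    have h2 := aeval_smul (hf.pderiv (i := j)) (0 : S) z
    rw [zero_smul] at h2
    rw [h2]; simp
  rw [e, e x, e y, gr_add_right]

end Pool.Agent.P.MP_b8021b_nt.CT
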